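import Pool.Agent.Helper46.TC.Meas

/-!
# Bounds for the parameters
-/

set_option autoImplicit false

namespace Pool.Agent.Helper46.TC

open MeasureTheory Set Polynomial Matrix Module

theorem four_le_exp_two : (4 : ℝ) ≤ Real.exp 2 := by
  have h1 := Real.add_one_le_exp (1 : ℝ)
  have h2 : Real.exp 2 = Real.exp 1 * Real.exp 1 := by rw [← Real.exp_add]; norm_num
  rw [h2]
  nlinarith

theorem nat_add_one_le_exp (k : ℕ) : (k : ℝ) + 1 ≤ Real.exp k := Real.add_one_le_exp _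

/-- the threshold for the length of the intervals -/
theorem lam_bound (T : Tree) (m : ℕ) (k : ℕ) (hR : 1 / ((k : ℝ) + 1) ^ (2 * k * (m + 1)) ≤ RR T k)
    (g θ : ℕ) (Θ : ℝ) (hΘ : 1 ≤ Θ) (hΘ2 : Θ ≤ Real.exp θ) (N t : ℕ) (Y : ℝ) (hY1 : 1 ≤ Y)
    (hYk : ((k : ℝ) + 1) * ((k : ℝ) + 1) ≤ Y) (hYt : ((k : ℝ) + 1) * ((t : ℝ) + 1) ≤ Y) (hYN : (N : ℝ) + 1 ≤ Y) :
    4 * (((k : ℝ) + 1) ^ (k + 1) * (Lip k (Real.exp (2 * (g : ℝ) * (N + 1) + k * t)) (Real.exp (-(t : ℝ))) Θ *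
      Real.exp (-((2 * g + θ + m + 6 : ℕ) * Y))) ^ 2) ≤ RR T k := by
  have hk0 : (0 : ℝ) ≤ k := Nat.cast_nonneg k
  have ht0 : (0 : ℝ) ≤ t := Nat.cast_nonneg t
  have hg0 : (0 : ℝ) ≤ g := Nat.cast_nonneg g
  have hθ0 : (0 : ℝ) ≤ θ := Nat.cast_nonneg θ
  have hm0 : (0 : ℝ) ≤ m := Nat.cast_nonneg m
  have hkk : (k : ℝ) + 1 ≤ Y := by nlinarith
  have e1 : (4 : ℝ) ≤ Real.exp (2 * Y) := four_le_exp_two.trans (Real.exp_le_exp.2 (by linarith))
  have hk1 : (k : ℝ) + 1 ≤ Real.exp Y := (nat_add_one_le_exp k).trans (Real.exp_le_exp.2 (by linarith))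
  have hkY : (k : ℝ) ≤ Real.exp Y := by linarith
  have e2 : ((k : ℝ) + 1) ^ (k + 1) ≤ Real.exp Y := by
    calc ((k : ℝ) + 1) ^ (k + 1) ≤ (Real.exp k) ^ (k + 1) := pow_le_pow_left₀ (by positivity) (nat_add_one_le_exp k) _
      _ = Real.exp (((k + 1 : ℕ) : ℝ) * k) := by rw [← Real.exp_nat_mul]
      _ ≤ Real.exp Y := by
        apply Real.exp_le_exp.2
        push_cast
        nlinarith
  have e3 : Θ ^ k ≤ Real.exp (θ * Y) := by
    calc Θ ^ k ≤ (Real.exp θ) ^ k := pow_le_pow_left₀ (by linarith) hΘ2 k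
      _ = Real.exp ((k : ℝ) * θ) := by rw [← Real.exp_nat_mul]
      _ ≤ _ := by
        apply Real.exp_le_exp.2
        rw [mul_comm]
        exact mul_le_mul_of_nonneg_left (by linarith) hθ0
  have e4 : Real.exp (2 * (g : ℝ) * (N + 1) + k * t) / Real.exp (-(t : ℝ)) ≤ Real.exp ((2 * g + 1) * Y) := by
    rw [← Real.exp_sub]
    apply Real.exp_le_exp.2
    have h1 : 2 * (g : ℝ) * (N + 1) ≤ 2 * g * Y := mul_le_mul_of_nonneg_left hYN (by linarith)
    nlinarith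
  have e5 : Lip k (Real.exp (2 * (g : ℝ) * (N + 1) + k * t)) (Real.exp (-(t : ℝ))) Θ ≤
      Real.exp ((θ + 2 * g + 3) * Y) := by
    unfold Lip
    calc ((k : ℝ) + 1) * (Real.exp (2 * (g : ℝ) * (N + 1) + k * t) * (k * Θ ^ k) / Real.exp (-(t : ℝ)))
        = ((k : ℝ) + 1) * (k * Θ ^ k) * (Real.exp (2 * (g : ℝ) * (N + 1) + k * t) / Real.exp (-(t : ℝ))) := by ring
      _ ≤ Real.exp Y * (Real.exp Y * Real.exp (θ * Y)) * Real.exp ((2 * g + 1) * Y) := by gcongr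
      _ = Real.exp ((θ + 2 * g + 3) * Y) := by
        rw [← Real.exp_add, ← Real.exp_add, ← Real.exp_add]; congr 1; ring
  have hLip : 0 ≤ Lip k (Real.exp (2 * (g : ℝ) * (N + 1) + k * t)) (Real.exp (-(t : ℝ))) Θ := by
    unfold Lip; positivity
  have e6 : Real.exp (-((2 * m + 2) * Y)) ≤ RR T k := by
    refine le_trans ?_ hR
    rw [Real.exp_neg, ← one_div]
    apply one_div_le_one_div_of_le (by positivity)
    calc ((k : ℝ) + 1) ^ (2 * k * (m + 1)) ≤ (Real.exp k) ^ (2 * k * (m + 1)) :=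
          pow_le_pow_left₀ (by positivity) (nat_add_one_le_exp k) _
      _ = Real.exp (((2 * k * (m + 1) : ℕ) : ℝ) * k) := by rw [← Real.exp_nat_mul]
      _ ≤ _ := by
        apply Real.exp_le_exp.2
        push_cast
        have h1 : (k : ℝ) * k ≤ Y := by nlinarith
        have h2 := mul_le_mul_of_nonneg_left h1 (by linarith : (0 : ℝ) ≤ 2 * m + 2)
        linarith
  refine le_trans ?_ e6
  rw [mul_pow, ← Real.exp_nat_mul]
  calc 4 * (((k : ℝ) + 1) ^ (k + 1) * ((Lip k (Real.exp (2 * (g : ℝ) * (N + 1) + k * t)) (Real.exp (-(t : ℝ))) Θ) ^ 2 *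
        Real.exp (((2 : ℕ) : ℝ) * -((2 * g + θ + m + 6 : ℕ) * Y))))
      ≤ Real.exp (2 * Y) * (Real.exp Y * ((Real.exp ((θ + 2 * g + 3) * Y)) ^ 2 *
        Real.exp (((2 : ℕ) : ℝ) * -((2 * g + θ + m + 6 : ℕ) * Y)))) := by gcongr
    _ = Real.exp (-((2 * m + 3) * Y)) := by
      rw [← Real.exp_nat_mul, ← Real.exp_add, ← Real.exp_add, ← Real.exp_add]
      congr 1
      push_cast
      ring
    _ ≤ _ := by
      apply Real.exp_le_exp.2
      linarith

/-- the ratio of lengths above the threshold -/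
theorem sigma_bound (T : Tree) (K : ℝ) (hK : 0 ≤ K) (Y : ℝ) (hY : 1 ≤ Y) (n : ℕ) (x : Om)
    (h : Real.exp (-(K * Y)) < T.len (n - 1) x) :
    T.len (n - 1) x ≤ ((1 + T.ρ * (1 + K + |Real.log (r1 T - r0 T)|)) * Y) * T.len n x := by
  have hl := T.len_pos n x
  have hl' := T.len_pos (n - 1) x
  have hρ := T.hρ
  refine (T.par_len n x).trans (mul_le_mul_of_nonneg_right ?_ hl.le)
  have h1 : |Real.log (T.len (n - 1) x)| ≤ K * Y + |Real.log (r1 T - r0 T)| := by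
    have h2 : -(K * Y) ≤ Real.log (T.len (n - 1) x) := by
      rw [Real.le_log_iff_exp_le hl']; exact h.le
    have h3 : Real.log (T.len (n - 1) x) ≤ Real.log (r1 T - r0 T) := Real.log_le_log hl' (len_le_root T _ _)
    have h4 : 0 ≤ K * Y := by positivity
    rw [abs_le]
    constructor
    · linarith [abs_nonneg (Real.log (r1 T - r0 T))]
    · linarith [le_abs_self (Real.log (r1 T - r0 T))]
  have hL : 0 ≤ |Real.log (r1 T - r0 T)| := abs_nonneg _
  have h5 : 1 + |Real.log (T.len (n - 1) x)| ≤ (1 + K + |Real.log (r1 T - r0 T)|) * Y := by nlinarith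
  apply max_le
  · have : 0 ≤ T.ρ * (1 + K + |Real.log (r1 T - r0 T)|) := by positivity
    nlinarith
  · have h6 := mul_le_mul_of_nonneg_left h5 hρ.le
    nlinarith

end Pool.Agent.Helper46.TC
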