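import Pool.Agent.Helper46.TC.BC1

/-!
# The measure of the bad set for fixed parameters
-/

set_option autoImplicit false

namespace Pool.Agent.Helper46.TC

open MeasureTheory Set Polynomial Matrix Module

/-- the size parameter -/
def XX (k N t : ℕ) : ℝ := ((k : ℝ) + 1) * ((N : ℝ) + 1) * ((t : ℝ) + 1)

theorem XX_k (k N t : ℕ) : (k : ℝ) + 1 ≤ XX k N t := by
  have h1 : (0 : ℝ) ≤ k := Nat.cast_nonneg k
  have h2 : (0 : ℝ) ≤ N := Nat.cast_nonneg N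
  have h3 : (0 : ℝ) ≤ t := Nat.cast_nonneg t
  have h4 : (k : ℝ) + 1 ≤ ((k : ℝ) + 1) * ((N : ℝ) + 1) := le_mul_of_one_le_right (by linarith) (by linarith)
  exact h4.trans (le_mul_of_one_le_right (by positivity) (by linarith))

theorem XX_N (k N t : ℕ) : (N : ℝ) + 1 ≤ XX k N t := by
  have h1 : (0 : ℝ) ≤ k := Nat.cast_nonneg k
  have h2 : (0 : ℝ) ≤ N := Nat.cast_nonneg N
  have h3 : (0 : ℝ) ≤ t := Nat.cast_nonneg t
  have h4 : (N : ℝ) + 1 ≤ ((k : ℝ) + 1) * ((N : ℝ) + 1) := le_mul_of_one_le_left (by linarith) (by linarith)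
  exact h4.trans (le_mul_of_one_le_right (by positivity) (by linarith))

theorem XX_t (k N t : ℕ) : (t : ℝ) + 1 ≤ XX k N t := by
  have h1 : (0 : ℝ) ≤ k := Nat.cast_nonneg k
  have h2 : (0 : ℝ) ≤ N := Nat.cast_nonneg N
  have h3 : (0 : ℝ) ≤ t := Nat.cast_nonneg t
  have h4 : 1 ≤ ((k : ℝ) + 1) * ((N : ℝ) + 1) := one_le_mul_of_one_le_of_one_le (by linarith) (by linarith)
  exact le_mul_of_one_le_left (by linarith) h4

theorem XX_one (k N t : ℕ) : 1 ≤ XX k N t := by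
  have h1 := XX_k k N t
  have h2 : (0 : ℝ) ≤ k := Nat.cast_nonneg k
  linarith

/-- the small parameter -/
noncomputable def et (q k N t : ℕ) : ℝ := (1 / 2) / XX k N t ^ (q * (k + 1))

theorem et_pos (q k N t : ℕ) : 0 < et q k N t := by
  have h : 0 < XX k N t := lt_of_lt_of_le one_pos (XX_one k N t)
  unfold et
  exact div_pos (by norm_num) (pow_pos h _)

theorem et_le (q k N t : ℕ) : et q k N t ≤ 1 / 2 := by
  unfold et
  exact div_le_self (by norm_num) (one_le_pow₀ (XX_one k N t))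

/-- the power -/
theorem pow_bound (s C2 : ℝ) (hs : 0 < s) (hC2 : 0 < C2) (g q : ℕ) (hq2 : 2 ≤ q) (hqs : (g : ℝ) + 8 ≤ s * ((q : ℝ) - 2))
    (k : ℕ) (X0 : ℝ) (hX : 1 ≤ X0) :
    (2 * (C2 * X0 ^ 2) * ((1 / 2) / X0 ^ (q * (k + 1)))) ^ s ≤ C2 ^ s / X0 ^ ((g + 8) * (k + 1)) := by
  have hX0pos : 0 < X0 := by linarith
  have hqk : 2 ≤ q * (k + 1) := hq2.trans (Nat.le_mul_of_pos_right q (Nat.succ_pos k))
  obtain ⟨n', hn'⟩ := Nat.exists_eq_add_of_le' hqk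
  have h1 : 2 * (C2 * X0 ^ 2) * ((1 / 2) / X0 ^ (q * (k + 1))) = C2 / X0 ^ n' := by
    rw [hn', pow_add]
    have h2 : X0 ^ n' ≠ 0 := (pow_pos hX0pos _).ne'
    have h3 : X0 ^ 2 ≠ 0 := (pow_pos hX0pos _).ne'
    field_simp
  rw [h1, Real.div_rpow hC2.le (pow_nonneg hX0pos.le _)]
  have h2 : X0 ^ ((g + 8) * (k + 1)) ≤ (X0 ^ n') ^ s := by
    rw [← Real.rpow_natCast X0 n', ← Real.rpow_mul hX0pos.le, ← Real.rpow_natCast]
    apply Real.rpow_le_rpow_of_exponent_le hX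
    have h3 : (n' : ℝ) = q * ((k : ℝ) + 1) - 2 := by
      have h4 : ((q * (k + 1) : ℕ) : ℝ) = ((n' + 2 : ℕ) : ℝ) := by rw [hn']
      push_cast at h4
      linarith
    push_cast
    rw [h3]
    have hk0 : (0 : ℝ) ≤ k := Nat.cast_nonneg k
    have h5 := mul_le_mul_of_nonneg_right hqs (by linarith : (0 : ℝ) ≤ (k : ℝ) + 1)
    have h6 : s * ((q : ℝ) - 2) * ((k : ℝ) + 1) = (q * ((k : ℝ) + 1) - 2) * s - 2 * s * k := by ring
    have h7 : 0 ≤ 2 * s * k := by positivity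
    linarith
  exact div_le_div_of_nonneg_left (Real.rpow_nonneg hC2.le _) (pow_pos hX0pos _) h2

/-- the bad set for fixed parameters -/
def S1 (T : Tree) (q k N t : ℕ) (u : Fin k → ℕ) (w : Fin (k + 1) → ℝ) : Set Om :=
  {z | ∃ v : Fin (k + 1) → ℤ, v ≠ 0 ∧ ((k : ℝ) + 1) ^ 2 *
    nrm (fun c => w c / mn w * Real.exp (∑ i, (u i : ℝ))) (wt u) (T.pt z) v < et q k N t ^ DD k * RR T k}

/-- the constant -/
noncomputable def cc (T : Tree) (K1 : ℕ) : ℝ := 1 + T.ρ * (1 + K1 + |Real.log (r1 T - r0 T)|)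

theorem cc_pos (T : Tree) (K1 : ℕ) : 0 < cc T K1 := by
  have hρ := T.hρ
  unfold cc
  positivity

theorem one_bad (T : Tree) (hT : 0 ≤ r0 T) (F : Fam) (m θ q : ℕ) (Θ : ℝ) (hΘ1 : 1 ≤ Θ) (hΘr : r1 T ≤ Θ)
    (hθ' : Θ ≤ Real.exp θ) (hq2 : 2 ≤ q) (hqs : (F.g : ℝ) + 8 ≤ T.s * ((q : ℝ) - 2)) (k N t : ℕ) (hk : 1 ≤ k)
    (hR : 1 / ((k : ℝ) + 1) ^ (2 * k * (m + 1)) ≤ RR T k)
    (u : Fin k → ℕ) (hu : ∀ i, u i ≤ t) (w : Fin (k + 1) → ℝ) (hw : ∀ c, w c ∈ F.W N) :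
    P T.b (S1 T q k N t u w) ≤ ENNReal.ofReal (2 * T.C * cc T (2 * F.g + θ + m + 6) ^ T.s *
      (((k : ℝ) + 1) ^ 3 / XX k N t ^ ((F.g + 8) * (k + 1)))) := by
  have hs := T.hs
  have hC := T.hC
  have hX01 : 1 ≤ XX k N t := XX_one k N t
  have hX0pos : 0 < XX k N t := by linarith
  have hY1 : 1 ≤ XX k N t ^ 2 := one_le_pow₀ hX01
  have hXY : XX k N t ≤ XX k N t ^ 2 := by rw [sq]; exact le_mul_of_one_le_left hX0pos.le hX01
  have hk0 : (0 : ℝ) ≤ k := Nat.cast_nonneg k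
  have ht0 : (0 : ℝ) ≤ t := Nat.cast_nonneg t
  have hYk : ((k : ℝ) + 1) * ((k : ℝ) + 1) ≤ XX k N t ^ 2 := by
    rw [sq]; exact mul_le_mul (XX_k k N t) (XX_k k N t) (by positivity) hX0pos.le
  have hYt : ((k : ℝ) + 1) * ((t : ℝ) + 1) ≤ XX k N t ^ 2 := by
    rw [sq]; exact mul_le_mul (XX_k k N t) (XX_t k N t) (by positivity) hX0pos.le
  have hYN : (N : ℝ) + 1 ≤ XX k N t ^ 2 := (XX_N k N t).trans hXY
  have hlam2 := lam_bound T m k hR F.g θ Θ hΘ1 hθ' N t (XX k N t ^ 2) hY1 hYk hYt hYN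
  obtain ⟨c0, hc0⟩ := mn_mem w
  have hmn0 : 0 < mn w := by rw [hc0]; exact lt_of_lt_of_le (Real.exp_pos _) (F.lower N _ (hw c0))
  have hwmn : ∀ c, 1 ≤ w c / mn w := fun c => by rw [one_le_div hmn0]; exact mn_le w c
  have hsum : ∑ i, (u i : ℝ) ≤ k * t := by
    have h1 : ∀ i ∈ (Finset.univ : Finset (Fin k)), (u i : ℝ) ≤ t := fun i _ => by exact_mod_cast hu i
    refine (Finset.sum_le_sum h1).trans (le_of_eq ?_)
    rw [Finset.sum_const, Finset.card_univ, Fintype.card_fin, nsmul_eq_mul]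
  have hA0 : ∀ c, 0 < w c / mn w * Real.exp (∑ i, (u i : ℝ)) := fun c =>
    mul_pos (lt_of_lt_of_le one_pos (hwmn c)) (Real.exp_pos _)
  have hA1 : ∀ c, w c / mn w * Real.exp (∑ i, (u i : ℝ)) ≤ Real.exp (2 * (F.g : ℝ) * (N + 1) + k * t) := fun c => by
    have h1 : w c / mn w ≤ Real.exp (2 * (F.g : ℝ) * (N + 1)) := by
      rw [div_le_iff₀ hmn0]
      have h2 := F.upper N _ (hw c)
      have h3 := F.lower N _ (hw c0)
      rw [← hc0] at h3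
      calc w c ≤ Real.exp ((F.g : ℝ) * (N + 1)) := h2
        _ = Real.exp (2 * (F.g : ℝ) * (N + 1)) * Real.exp (-((F.g : ℝ) * (N + 1))) := by
          rw [← Real.exp_add]; congr 1; ring
        _ ≤ _ := mul_le_mul_of_nonneg_left h3 (Real.exp_pos _).le
    rw [Real.exp_add]
    exact mul_le_mul h1 (Real.exp_le_exp.2 hsum) (Real.exp_pos _).le (Real.exp_pos _).le
  have hAB : ∀ c, 1 ≤ w c / mn w * Real.exp (∑ i, (u i : ℝ)) * ∏ j : Fin k, wt u j.succ := fun c => by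
    simp only [wt_succ]
    rw [← Real.exp_sum, Finset.sum_neg_distrib, mul_assoc, ← Real.exp_add, add_neg_cancel, Real.exp_zero, mul_one]
    exact hwmn c
  have hcc := cc_pos T (2 * F.g + θ + m + 6)
  have hm := meas T hT hk (fun c => w c / mn w * Real.exp (∑ i, (u i : ℝ))) (wt u)
    (Real.exp (2 * (F.g : ℝ) * (N + 1) + k * t)) (Real.exp (-(t : ℝ))) Θ (Real.exp_pos _) hΘ1 hΘr
    (le_wt u t hu) (wt_le u) hA0 hA1 hAB
    (Real.exp (-((2 * F.g + θ + m + 6 : ℕ) * XX k N t ^ 2))) (Real.exp_pos _) hlam2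
    (cc T (2 * F.g + θ + m + 6) * XX k N t ^ 2) (mul_pos hcc (by linarith))
    (fun n x h => sigma_bound T ((2 * F.g + θ + m + 6 : ℕ) : ℝ) (Nat.cast_nonneg _) (XX k N t ^ 2) hY1 n x h)
    (et q k N t) (et_pos q k N t) (et_le q k N t)
  refine hm.trans ?_
  apply ENNReal.ofReal_le_ofReal
  have h2 := pow_bound T.s (cc T (2 * F.g + θ + m + 6)) hs hcc F.g q hq2 hqs k (XX k N t) hX01
  have h3 : 0 ≤ 2 * ((k : ℝ) + 1) ^ 3 * T.C := by positivity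
  calc 2 * ((k : ℝ) + 1) ^ 3 * T.C * (2 * (cc T (2 * F.g + θ + m + 6) * XX k N t ^ 2) * et q k N t) ^ T.s
      ≤ 2 * ((k : ℝ) + 1) ^ 3 * T.C * (cc T (2 * F.g + θ + m + 6) ^ T.s / XX k N t ^ ((F.g + 8) * (k + 1))) :=
        mul_le_mul_of_nonneg_left h2 h3
    _ = _ := by ring

end Pool.Agent.Helper46.TC
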