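import Mathlib

/-!
# Measure properties of a real number

`HasW F α`: a multiplicative transcendence measure with weights.  For all degrees `k ≥ 1`, all weights `w c ∈ F.W N`
and all non-zero integer vectors `v` the form `∑ v c * w c * α ^ c` is not small, relative to the smallest weight
and to the product of the coefficients `v 1, …, v k`.
-/

set_option autoImplicit false

namespace Pool.Agent.Helper46.TC

open Polynomial

variable {k : ℕ}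

/-- families of weights of polynomial growth -/
structure Fam where
  W : ℕ → Finset ℝ
  g : ℕ
  card_le : ∀ N, (W N).card ≤ (N + 1) ^ g
  lower : ∀ N, ∀ w ∈ W N, Real.exp (-((g : ℝ) * (N + 1))) ≤ w
  upper : ∀ N, ∀ w ∈ W N, w ≤ Real.exp ((g : ℝ) * (N + 1))

/-- smallest weight -/
noncomputable def mn (w : Fin (k + 1) → ℝ) : ℝ := Finset.univ.inf' ⟨0, Finset.mem_univ _⟩ w

theorem mn_le (w : Fin (k + 1) → ℝ) (c : Fin (k + 1)) : mn w ≤ w c := Finset.inf'_le _ (Finset.mem_univ c)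

theorem mn_mem (w : Fin (k + 1) → ℝ) : ∃ c, mn w = w c := by
  obtain ⟨c, _, hc⟩ := Finset.exists_mem_eq_inf' (s := Finset.univ) ⟨(0 : Fin (k + 1)), Finset.mem_univ _⟩ w
  exact ⟨c, hc⟩

/-- weighted multiplicative measure -/
def HasW (F : Fam) (α : ℝ) : Prop :=
  ∃ C : ℝ, 0 < C ∧ ∀ (k N : ℕ) (w : Fin (k + 1) → ℝ) (v : Fin (k + 1) → ℤ) (H : ℝ), 1 ≤ k →
    (∀ c, w c ∈ F.W N) → v ≠ 0 → 1 ≤ H → (∀ c, |(v c : ℝ)| ≤ H) →
    Real.exp (-(C * (k : ℝ) ^ 5 * (1 + Real.log (1 + Real.log H) + Real.log (1 + N)))) ≤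
      |∑ c, (v c : ℝ) * w c * α ^ (c : ℕ)| / mn w * ∏ i : Fin k, max 1 |(v i.succ : ℝ)|

/-- multiplicative measure -/
def HasMult (α : ℝ) : Prop :=
  ∃ C : ℝ, 0 < C ∧ ∀ (k : ℕ) (p : ℤ[X]) (H : ℝ), 1 ≤ k → p ≠ 0 → p.natDegree ≤ k → 1 ≤ H →
    (∀ i, |(p.coeff i : ℝ)| ≤ H) →
      Real.exp (-(C * (k : ℝ) ^ 5 * (1 + Real.log (1 + Real.log H)))) ≤
        |aeval α p| * ∏ i : Fin k, max 1 |(p.coeff (i + 1) : ℝ)|

/-- measure uniform in the degree -/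
def HasUnif (α : ℝ) : Prop :=
  ∃ C : ℝ, 0 < C ∧ ∀ (k : ℕ) (p : ℤ[X]) (H : ℝ), 1 ≤ k → p ≠ 0 → p.natDegree ≤ k → 1 ≤ H →
    (∀ i, |(p.coeff i : ℝ)| ≤ H) → Real.exp (-(C * k * (k + Real.log H))) ≤ |aeval α p|

end Pool.Agent.Helper46.TC
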