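import Pool.Agent.Helper46.TC.BC

/-!
# The multiplicative transcendence measure with weights
-/

set_option autoImplicit false

namespace Pool.Agent.Helper46.TC

open MeasureTheory Set Polynomial Matrix Module

theorem log_nat_add_one_le (k : ℕ) : Real.log ((k : ℝ) + 1) ≤ k := by
  have := Real.log_le_sub_one_of_pos (by positivity : (0 : ℝ) < (k : ℝ) + 1)
  linarith

/-- choice of the shift -/
theorem exists_shift (K t0 : ℕ) : ∃ w0 : ℝ, 0 ≤ w0 ∧ (t0 : ℝ) ≤ w0 ∧
    4 + 24 * (K : ℝ) + 8 * K * (Real.log (8 * (K : ℝ) + 3 + w0) + 4) ≤ w0 := by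
  have h1 := Real.tendsto_pow_mul_exp_neg_atTop_nhds_zero (8 * K)
  have h2 : Filter.Tendsto (fun w : ℝ => 8 * (K : ℝ) + 3 + w) Filter.atTop Filter.atTop :=
    Filter.tendsto_atTop_add_const_left _ _ Filter.tendsto_id
  have h3 := h1.comp h2
  have h4 := h3.eventually (gt_mem_nhds (Real.exp_pos (-((8 * (K : ℝ) + 3) + (4 + 24 * (K : ℝ) + 32 * K)))))
  obtain ⟨w, ⟨hw1, hw2⟩, hw3⟩ := ((h4.and (Filter.eventually_ge_atTop (t0 : ℝ))).and
    (Filter.eventually_ge_atTop (0 : ℝ))).exists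
  refine ⟨w, hw3, hw2, ?_⟩
  simp only [Function.comp_apply] at hw1
  have hB : 0 < 8 * (K : ℝ) + 3 + w := by positivity
  have h5 := Real.log_lt_log (by positivity) hw1
  rw [Real.log_mul (by positivity) (Real.exp_pos _).ne', Real.log_pow, Real.log_exp, Real.log_exp] at h5
  push_cast at h5
  linarith

theorem num (K t0 : ℕ) : ∃ C : ℝ, 0 < C ∧ ∀ (k M : ℕ), 1 ≤ k → ∀ (H y : ℝ) (h : Fin k → ℝ), 1 ≤ H → 0 ≤ y →
    (∀ i, 1 ≤ h i) → (∀ i, h i ≤ H) →
    (∀ t : ℕ, t0 ≤ t → ∀ u : Fin k → ℕ, (∀ i, u i ≤ t) →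
      1 / (((k : ℝ) + 1) * ((M : ℝ) + 1) * ((t : ℝ) + 1)) ^ (K * (k + 1) ^ 3) ≤
      ((k : ℝ) + 1) ^ 2 * ((Real.exp (∑ i, (u i : ℝ)) * y) ^ 2 + ∑ i, (Real.exp (-(u i : ℝ)) * h i) ^ 2)) →
    Real.exp (-(C * (k : ℝ) ^ 5 * (1 + Real.log (1 + Real.log H) + Real.log (1 + M)))) ≤ y * ∏ i, h i := by
  obtain ⟨w0, hw00, hw0t, hw0⟩ := exists_shift K t0
  refine ⟨16 * K + 5 + 3 * w0, by positivity, ?_⟩
  intro k M hk H y h hH hy hh1 hhH hyp
  have hkR : (1 : ℝ) ≤ k := by exact_mod_cast hk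
  have hk0 : (0 : ℝ) ≤ k := by linarith
  have hKR : (0 : ℝ) ≤ K := Nat.cast_nonneg K
  set N : ℕ := K * (k + 1) ^ 3 with hN
  have hN8 : (N : ℝ) ≤ 8 * K * (k : ℝ) ^ 3 := by
    rw [hN]; push_cast
    have h1 : ((k : ℝ) + 1) ^ 3 ≤ (2 * (k : ℝ)) ^ 3 := pow_le_pow_left₀ (by positivity) (by linarith) 3
    calc (K : ℝ) * ((k : ℝ) + 1) ^ 3 ≤ K * (2 * (k : ℝ)) ^ 3 := by gcongr
      _ = _ := by ring
  have hN0 : (0 : ℝ) ≤ N := Nat.cast_nonneg N
  have hk12 : (1 : ℝ) ≤ (k : ℝ) ^ 2 := one_le_pow₀ hkR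
  have hk34 : (k : ℝ) ^ 3 ≤ (k : ℝ) ^ 4 := pow_le_pow_right₀ hkR (by norm_num)
  have hk4 : (1 : ℝ) ≤ (k : ℝ) ^ 4 := one_le_pow₀ hkR
  have hk14 : (k : ℝ) ≤ (k : ℝ) ^ 4 := by
    calc (k : ℝ) = (k : ℝ) ^ 1 := (pow_one _).symm
      _ ≤ _ := pow_le_pow_right₀ hkR (by norm_num)
  have hM0 : (0 : ℝ) ≤ M := Nat.cast_nonneg M
  have hlM0 : 0 ≤ Real.log ((M : ℝ) + 1) := Real.log_nonneg (by linarith)
  set l : ℝ := 1 + Real.log ((M : ℝ) + 1) with hl
  have hl1 : 1 ≤ l := by rw [hl]; linarith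
  have hl0' : 0 ≤ l := by linarith
  have hlogl0 : 0 ≤ Real.log l := Real.log_nonneg hl1
  have hlogl : Real.log l ≤ l := (Real.log_le_sub_one_of_pos (by linarith)).trans (by linarith)
  set w : ℝ := w0 * (k : ℝ) ^ 4 * l with hw
  have hww0 : w0 ≤ w := by
    rw [hw]; exact (le_mul_of_one_le_right hw00 hk4).trans (le_mul_of_one_le_right (by positivity) hl1)
  have hwpos : 0 ≤ w := hw00.trans hww0
  set B : ℝ := (N : ℝ) + 3 + w with hB
  have hB0 : 0 < B := by rw [hB]; positivity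
  -- the key property of the shift, in logarithms
  have hlogB : Real.log B ≤ Real.log (8 * (K : ℝ) + 3 + w0) + 4 * k + l := by
    have h1 : B ≤ (8 * (K : ℝ) + 3 + w0) * (k : ℝ) ^ 4 * l := by
      have h2 : (N : ℝ) ≤ 8 * K * (k : ℝ) ^ 4 := hN8.trans (mul_le_mul_of_nonneg_left hk34 (by positivity))
      have h3 : (N : ℝ) + 3 ≤ (8 * K * (k : ℝ) ^ 4 + 3 * (k : ℝ) ^ 4) * l := by
        refine le_trans ?_ (le_mul_of_one_le_right (by positivity) hl1)
        linarith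
      rw [hB, hw]
      linarith
    have h2 := Real.log_le_log hB0 h1
    have hlpos : 0 < l := by linarith
    rw [Real.log_mul (by positivity) hlpos.ne', Real.log_mul (by positivity) (by positivity), Real.log_pow] at h2
    have h3 : Real.log (k : ℝ) ≤ k := (Real.log_le_sub_one_of_pos (by linarith)).trans (by linarith)
    push_cast at h2
    linarith
  have hl0 : 0 ≤ Real.log (8 * (K : ℝ) + 3 + w0) := Real.log_nonneg (by linarith)
  have hNlogB : (N : ℝ) * Real.log B ≤ (8 * K * (Real.log (8 * (K : ℝ) + 3 + w0) + 4)) * (k : ℝ) ^ 4 +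
      8 * K * (k : ℝ) ^ 4 * l := by
    have h1 : Real.log (8 * (K : ℝ) + 3 + w0) + 4 * k ≤ (Real.log (8 * (K : ℝ) + 3 + w0) + 4) * k := by
      have := le_mul_of_one_le_right hl0 hkR
      linarith
    have h0 : 0 ≤ (Real.log (8 * (K : ℝ) + 3 + w0) + 4) * k := by positivity
    calc (N : ℝ) * Real.log B ≤ N * ((Real.log (8 * (K : ℝ) + 3 + w0) + 4) * k + l) :=
          mul_le_mul_of_nonneg_left (by linarith) hN0
      _ ≤ (8 * K * (k : ℝ) ^ 3) * ((Real.log (8 * (K : ℝ) + 3 + w0) + 4) * k + l) :=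
          mul_le_mul_of_nonneg_right hN8 (by linarith)
      _ = (8 * K * (Real.log (8 * (K : ℝ) + 3 + w0) + 4)) * (k : ℝ) ^ 4 + 8 * K * l * (k : ℝ) ^ 3 := by ring
      _ ≤ (8 * K * (Real.log (8 * (K : ℝ) + 3 + w0) + 4)) * (k : ℝ) ^ 4 + 8 * K * l * (k : ℝ) ^ 4 := by
        have := mul_le_mul_of_nonneg_left hk34 (by positivity : 0 ≤ 8 * (K : ℝ) * l)
        linarith
      _ = _ := by ring
  have hlogk := log_nat_add_one_le k
  have hlogk0 : 0 ≤ Real.log ((k : ℝ) + 1) := Real.log_nonneg (by linarith)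
  have hkey : Real.log 2 + 3 * Real.log ((k : ℝ) + 1) + N * Real.log ((k : ℝ) + 1) + N * Real.log ((M : ℝ) + 1) +
      N * Real.log B ≤ w := by
    have h2 : Real.log 2 ≤ 1 := by
      have := Real.log_le_sub_one_of_pos (by norm_num : (0 : ℝ) < 2)
      linarith
    have h3 : (N : ℝ) * Real.log ((k : ℝ) + 1) ≤ 8 * K * (k : ℝ) ^ 4 := by
      calc (N : ℝ) * Real.log ((k : ℝ) + 1) ≤ (8 * K * (k : ℝ) ^ 3) * k := mul_le_mul hN8 hlogk hlogk0 (by positivity)
        _ = _ := by ring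
    have h4 := mul_le_mul_of_nonneg_right hw0 (by positivity : (0 : ℝ) ≤ (k : ℝ) ^ 4 * l)
    have h5 : w0 * ((k : ℝ) ^ 4 * l) = w := by rw [hw]; ring
    rw [h5] at h4
    have h6 : (N : ℝ) * Real.log ((M : ℝ) + 1) ≤ 8 * K * (k : ℝ) ^ 4 * l := by
      calc (N : ℝ) * Real.log ((M : ℝ) + 1) ≤ (8 * K * (k : ℝ) ^ 3) * l :=
            mul_le_mul hN8 (by rw [hl]; linarith) hlM0 (by positivity)
        _ ≤ (8 * K * (k : ℝ) ^ 4) * l :=
            mul_le_mul_of_nonneg_right (mul_le_mul_of_nonneg_left hk34 (by positivity)) hl0'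
    have h7 : (k : ℝ) ^ 4 ≤ (k : ℝ) ^ 4 * l := le_mul_of_one_le_right (by positivity) hl1
    have h8 := mul_le_mul_of_nonneg_left h7 (by positivity : 0 ≤ 8 * (K : ℝ) * (Real.log (8 * (K : ℝ) + 3 + w0) + 4))
    have h9 := mul_le_mul_of_nonneg_left h7 (by positivity : 0 ≤ 8 * (K : ℝ))
    linarith
  -- the product `a`
  set a : ℝ := ((k : ℝ) + 1) ^ 2 with ha
  have ha0 : 0 < a := by rw [ha]; positivity
  set c0 : ℝ := 1 / (((k : ℝ) + 1) * ((M : ℝ) + 1)) ^ N with hc0d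
  have hc0 : 0 < c0 := by rw [hc0d]; positivity
  have hlogc0 : Real.log c0 = -(N * (Real.log ((k : ℝ) + 1) + Real.log ((M : ℝ) + 1))) := by
    rw [hc0d, Real.log_div one_ne_zero (by positivity), Real.log_one, Real.log_pow,
      Real.log_mul (by positivity) (by positivity)]
    ring
  have hloga : Real.log a = 2 * Real.log ((k : ℝ) + 1) := by
    rw [ha, Real.log_pow]; norm_num
  clear_value a c0
  have hw2 : 2 * a * k * B ^ N ≤ c0 * Real.exp w := by
    rw [← Real.exp_log (by positivity : 0 < 2 * a * k * B ^ N), ← Real.exp_log hc0, ← Real.exp_add]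
    apply Real.exp_le_exp.2
    rw [Real.log_mul (by positivity) (by positivity), Real.log_mul (by positivity) (by positivity),
      Real.log_mul (by norm_num) (by positivity), Real.log_pow, hlogc0, hloga]
    have h1 : Real.log (k : ℝ) ≤ Real.log ((k : ℝ) + 1) := Real.log_le_log (by linarith) (by linarith)
    linarith
  set L : ℝ := 1 + Real.log H with hL
  have hlogH : 0 ≤ Real.log H := Real.log_nonneg hH
  have hL1 : 1 ≤ L := by rw [hL]; linarith
  have hL0 : 0 < L := by linarith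
  have hlogL : 0 ≤ Real.log L := Real.log_nonneg hL1
  have hlogL2 : Real.log L ≤ L := (Real.log_le_sub_one_of_pos hL0).trans (by linarith)
  have hh0 : ∀ i, 0 < h i := fun i => by linarith [hh1 i]
  set τ : ℝ := Real.log H + N * Real.log L + w with hτ
  have hτ0 : 0 ≤ τ := by positivity
  set σ : Fin k → ℝ := fun i => Real.log (h i) + N * Real.log L + w with hσ
  have hσ0 : ∀ i, 0 ≤ σ i := fun i => by
    have := Real.log_nonneg (hh1 i)
    simp only [hσ]; positivity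
  have hστ : ∀ i, σ i ≤ τ := fun i => by
    have := Real.log_le_log (hh0 i) (hhH i)
    simp only [hσ, hτ]; linarith
  set t : ℕ := ⌈τ⌉₊ with ht
  set u : Fin k → ℕ := fun i => ⌈σ i⌉₊ with hu
  have hut : ∀ i, u i ≤ t := fun i => Nat.ceil_mono (hστ i)
  have ht1 : τ ≤ t := Nat.le_ceil τ
  have ht2 : (t : ℝ) < τ + 1 := Nat.ceil_lt_add_one hτ0
  have hu1 : ∀ i, σ i ≤ u i := fun i => Nat.le_ceil _
  have hu2 : ∀ i, (u i : ℝ) < σ i + 1 := fun i => Nat.ceil_lt_add_one (hσ0 i)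
  have ht3 : t0 ≤ t := by
    have : (t0 : ℝ) ≤ t := by
      refine (hw0t.trans hww0).trans (le_trans ?_ ht1)
      rw [hτ]
      have : 0 ≤ (N : ℝ) * Real.log L := by positivity
      linarith
    exact_mod_cast this
  have hexpσ : ∀ i, Real.exp (σ i) = h i * L ^ N * Real.exp w := fun i => by
    simp only [hσ]
    rw [Real.exp_add, Real.exp_add, Real.exp_log (hh0 i), Real.exp_nat_mul, Real.exp_log hL0]
  have hmain := hyp t ht3 u hut
  rw [mul_pow, ← div_div, ← hc0d] at hmain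
  have ht4 : (t : ℝ) + 1 ≤ B * L := by
    have h1 : (N : ℝ) * Real.log L ≤ N * L := mul_le_mul_of_nonneg_left hlogL2 (Nat.cast_nonneg _)
    have h2 : w ≤ w * L := le_mul_of_one_le_right hwpos hL1
    have h3 : (t : ℝ) + 1 ≤ τ + 2 := by linarith
    refine h3.trans ?_
    have h4 : Real.log H ≤ L := by rw [hL]; linarith
    calc τ + 2 ≤ L + N * L + w * L + 2 * L := by rw [hτ]; linarith
      _ = B * L := by rw [hB]; ring
  -- the second term
  have h1 : a * ∑ i, (Real.exp (-(u i : ℝ)) * h i) ^ 2 ≤ (c0 / 2) / ((t : ℝ) + 1) ^ N := by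
    have h3 : ∀ i, (Real.exp (-(u i : ℝ)) * h i) ^ 2 ≤ Real.exp (-w) * (L ^ N)⁻¹ := by
      intro i
      have h2 : Real.exp (-(u i : ℝ)) * h i ≤ Real.exp (-w) * (L ^ N)⁻¹ := by
        have h3 : Real.exp (-(u i : ℝ)) ≤ Real.exp (-σ i) := Real.exp_le_exp.2 (by linarith [hu1 i])
        rw [Real.exp_neg (σ i), hexpσ] at h3
        rw [Real.exp_neg w]
        calc Real.exp (-(u i : ℝ)) * h i ≤ (h i * L ^ N * Real.exp w)⁻¹ * h i :=
              mul_le_mul_of_nonneg_right h3 (hh0 i).le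
          _ = (Real.exp w)⁻¹ * (L ^ N)⁻¹ := by
            have := (hh0 i).ne'
            field_simp
      have h4 : Real.exp (-w) * (L ^ N)⁻¹ ≤ 1 := by
        apply mul_le_one₀ (Real.exp_le_one_iff.2 (by linarith)) (by positivity)
        exact inv_le_one_of_one_le₀ (one_le_pow₀ hL1)
      have h5 : 0 ≤ Real.exp (-(u i : ℝ)) * h i := mul_nonneg (Real.exp_pos _).le (hh0 i).le
      have h6 : 0 ≤ Real.exp (-w) * (L ^ N)⁻¹ := by positivity
      calc (Real.exp (-(u i : ℝ)) * h i) ^ 2 ≤ (Real.exp (-w) * (L ^ N)⁻¹) ^ 2 := pow_le_pow_left₀ h5 h2 2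
        _ ≤ _ := by rw [sq]; exact mul_le_of_le_one_right h6 h4
    have h3' : ∑ i, (Real.exp (-(u i : ℝ)) * h i) ^ 2 ≤ k * (Real.exp (-w) * (L ^ N)⁻¹) := by
      refine (Finset.sum_le_sum fun i _ => h3 i).trans (le_of_eq ?_)
      rw [Finset.sum_const, Finset.card_univ, Fintype.card_fin, nsmul_eq_mul]
    have h4 : 2 * a * k * B ^ N * Real.exp (-w) ≤ c0 := by
      have h8 : Real.exp w * Real.exp (-w) = 1 := by rw [← Real.exp_add, add_neg_cancel, Real.exp_zero]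
      have h9 := mul_le_mul_of_nonneg_right hw2 (Real.exp_pos (-w)).le
      calc _ ≤ c0 * Real.exp w * Real.exp (-w) := h9
        _ = c0 := by rw [mul_assoc, h8, mul_one]
    have h5 : (c0 / 2) / (B * L) ^ N ≤ (c0 / 2) / ((t : ℝ) + 1) ^ N := by
      apply div_le_div_of_nonneg_left (by positivity) (by positivity)
      exact pow_le_pow_left₀ (by positivity) ht4 N
    refine le_trans ?_ h5
    rw [le_div_iff₀ (by positivity)]
    calc a * (∑ i, (Real.exp (-(u i : ℝ)) * h i) ^ 2) * (B * L) ^ N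
        ≤ a * (k * (Real.exp (-w) * (L ^ N)⁻¹)) * (B * L) ^ N := by gcongr
      _ = (2 * a * k * B ^ N * Real.exp (-w)) / 2 := by
        rw [mul_pow]; field_simp
      _ ≤ c0 / 2 := by linarith
  -- the first term
  have h2 : (c0 / 2) / ((t : ℝ) + 1) ^ N ≤ a * (Real.exp (∑ i, (u i : ℝ)) * y) ^ 2 := by
    have h3 : c0 / ((t : ℝ) + 1) ^ N = (c0 / 2) / ((t : ℝ) + 1) ^ N + (c0 / 2) / ((t : ℝ) + 1) ^ N := by ring
    rw [h3, mul_add] at hmain
    linarith
  set Q : ℝ := ∏ i, h i with hQ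
  have hQ0 : 0 < Q := Finset.prod_pos fun i _ => hh0 i
  have h3 : Real.exp (∑ i, (u i : ℝ)) ≤ Real.exp (1 + w) ^ k * Q * (L ^ N) ^ k := by
    rw [Real.exp_sum]
    have h4 : ∀ i, Real.exp (u i : ℝ) ≤ Real.exp (1 + w) * h i * L ^ N := fun i => by
      refine (Real.exp_le_exp.2 (hu2 i).le).trans (le_of_eq ?_)
      rw [Real.exp_add, hexpσ, Real.exp_add]
      ring
    refine (Finset.prod_le_prod (fun i _ => (Real.exp_pos _).le) fun i _ => h4 i).trans (le_of_eq ?_)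
    rw [Finset.prod_mul_distrib, Finset.prod_mul_distrib, Finset.prod_const, Finset.prod_const, Finset.card_univ,
      Fintype.card_fin]
  have h5 : (c0 / 2) / (B * L) ^ N ≤ a * (Real.exp (1 + w) ^ k * (L ^ N) ^ k * (y * Q)) ^ 2 := by
    refine le_trans ?_ (h2.trans ?_)
    · apply div_le_div_of_nonneg_left (by positivity) (by positivity)
      exact pow_le_pow_left₀ (by positivity) ht4 N
    · apply mul_le_mul_of_nonneg_left _ ha0.le
      apply pow_le_pow_left₀ (by positivity)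
      calc Real.exp (∑ i, (u i : ℝ)) * y ≤ (Real.exp (1 + w) ^ k * Q * (L ^ N) ^ k) * y :=
            mul_le_mul_of_nonneg_right h3 hy
        _ = _ := by ring
  have hy0 : 0 < y := by
    rcases hy.lt_or_eq with h | h
    · exact h
    · exfalso
      rw [← h] at h5
      have : 0 < (c0 / 2) / (B * L) ^ N := by positivity
      simp at h5
      linarith
  have hyQ : 0 < y * Q := mul_pos hy0 hQ0
  have h6 := Real.log_le_log (by positivity) h5
  rw [Real.log_div (by positivity) (by positivity), Real.log_div (by positivity) (by norm_num), Real.log_pow,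
    Real.log_mul (by positivity) (by positivity), Real.log_mul (by positivity) (by positivity), Real.log_pow,
    Real.log_mul (by positivity) (by positivity), Real.log_mul (by positivity) (by positivity), Real.log_pow,
    Real.log_pow, Real.log_pow, Real.log_exp, hlogc0, hloga] at h6
  rw [← Real.exp_log hyQ]
  apply Real.exp_le_exp.2
  push_cast at h6
  -- final bookkeeping
  have hk5 : (k : ℝ) ^ 4 ≤ (k : ℝ) ^ 5 := pow_le_pow_right₀ hkR (by norm_num)
  have hk15 : (k : ℝ) ≤ (k : ℝ) ^ 5 := hk14.trans hk5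
  have b1 : (N : ℝ) * Real.log L ≤ 8 * K * (k : ℝ) ^ 5 * Real.log L := by
    apply mul_le_mul_of_nonneg_right _ hlogL
    exact hN8.trans (mul_le_mul_of_nonneg_left (hk34.trans hk5) (by positivity))
  have b2 : (k : ℝ) * (N * Real.log L) ≤ 8 * K * (k : ℝ) ^ 5 * Real.log L := by
    calc (k : ℝ) * (N * Real.log L) = (k * N) * Real.log L := by ring
      _ ≤ (8 * K * (k : ℝ) ^ 5) * Real.log L := by
        apply mul_le_mul_of_nonneg_right _ hlogL
        calc (k : ℝ) * N ≤ k * (8 * K * (k : ℝ) ^ 3) := mul_le_mul_of_nonneg_left hN8 hk0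
          _ = 8 * K * (k : ℝ) ^ 4 := by ring
          _ ≤ _ := by gcongr
  have b3 : (k : ℝ) * w = w0 * (k : ℝ) ^ 5 + w0 * (k : ℝ) ^ 5 * Real.log ((M : ℝ) + 1) := by rw [hw, hl]; ring
  have b4 : w ≤ w0 * (k : ℝ) ^ 5 + w0 * (k : ℝ) ^ 5 * Real.log ((M : ℝ) + 1) := by
    have h1 := mul_le_mul_of_nonneg_right (mul_le_mul_of_nonneg_left hk5 hw00) hl0'
    rw [hw]
    refine h1.trans (le_of_eq ?_)
    rw [hl]; ring
  have b5 : 0 ≤ (k : ℝ) ^ 5 * Real.log L := by positivity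
  have b6 : 0 ≤ (k : ℝ) ^ 5 := by positivity
  have b7 : 0 ≤ w0 * ((k : ℝ) ^ 5 * Real.log L) := by positivity
  have b8 : 0 ≤ K * ((k : ℝ) ^ 5 * Real.log L) := by positivity
  have b9 : 0 ≤ K * (k : ℝ) ^ 5 := by positivity
  have b10 : 0 ≤ w0 * (k : ℝ) ^ 5 := by positivity
  have b11 : 0 ≤ N * Real.log ((k : ℝ) + 1) := by positivity
  have b12 : 0 ≤ (N : ℝ) * Real.log ((M : ℝ) + 1) := by positivity
  have b13 : 0 ≤ (k : ℝ) ^ 5 * Real.log ((M : ℝ) + 1) := by positivity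
  have b14 : 0 ≤ K * ((k : ℝ) ^ 5 * Real.log ((M : ℝ) + 1)) := by positivity
  have b15 : 0 ≤ w0 * ((k : ℝ) ^ 5 * Real.log ((M : ℝ) + 1)) := by positivity
  rw [add_comm (1 : ℝ) (M : ℝ)]
  linarith

theorem aeval_eq_sum (α : ℝ) (p : ℤ[X]) (k : ℕ) (hk : p.natDegree ≤ k) :
    aeval α p = ∑ c : Fin (k + 1), ((p.coeff c : ℤ) : ℝ) * α ^ (c : ℕ) := by
  rw [aeval_eq_sum_range' (Nat.lt_succ_of_le hk), Fin.sum_univ_eq_sum_range (fun i => ((p.coeff i : ℤ) : ℝ) * α ^ i)]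
  refine Finset.sum_congr rfl fun i _ => ?_
  rw [zsmul_eq_mul]

theorem ae_hasW (T : Tree) (hT : 0 ≤ r0 T) (F : Fam) : ∀ᵐ z ∂P T.b, HasW F (T.pt z) := by
  obtain ⟨K, hae⟩ := ae_large T hT F
  filter_upwards [hae] with z hz
  obtain ⟨t0, ht0⟩ := hz
  obtain ⟨C, hC, hnum⟩ := num K t0
  refine ⟨C, hC, fun k M w v H hk1 hw hv hH hcoef => ?_⟩
  obtain ⟨c0, hc0⟩ := mn_mem w
  have hmn0 : 0 < mn w := by rw [hc0]; exact lt_of_lt_of_le (Real.exp_pos _) (F.lower M _ (hw c0))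
  have h0 := hnum k M hk1 H (|∑ c, (v c : ℝ) * w c * T.pt z ^ (c : ℕ)| / mn w) (fun i => max 1 |(v i.succ : ℝ)|) hH
    (div_nonneg (abs_nonneg _) hmn0.le) (fun i => le_max_left _ _) (fun i => max_le hH (hcoef _))
  apply h0
  intro t ht u hu
  refine (ht0 k hk1 M t ht u hu w hw v hv).trans ?_
  apply mul_le_mul_of_nonneg_left _ (by positivity)
  unfold nrm
  rw [Fin.sum_univ_succ]
  have h1 : tv (fun c => w c / mn w * Real.exp (∑ i, (u i : ℝ))) (wt u) (T.pt z) v 0 =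
      Real.exp (∑ i, (u i : ℝ)) * ((∑ c, (v c : ℝ) * w c * T.pt z ^ (c : ℕ)) / mn w) := by
    unfold tv
    rw [Fin.cons_zero, Finset.sum_div, Finset.mul_sum]
    refine Finset.sum_congr rfl fun c _ => ?_
    ring
  rw [h1]
  apply add_le_add
  · rw [← sq_abs, abs_mul, abs_div, abs_of_pos (Real.exp_pos _), abs_of_pos hmn0]
  apply Finset.sum_le_sum
  intro i _
  have h2 : tv (fun c => w c / mn w * Real.exp (∑ i, (u i : ℝ))) (wt u) (T.pt z) v i.succ =
      Real.exp (-(u i : ℝ)) * (v i.succ : ℝ) := by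
    unfold tv
    rw [Fin.cons_succ, wt_succ]
  rw [h2, ← sq_abs, abs_mul, abs_of_pos (Real.exp_pos _)]
  apply pow_le_pow_left₀ (by positivity)
  exact mul_le_mul_of_nonneg_left (le_max_right _ _) (Real.exp_pos _).le

/-- the family with the single weight `1` -/
noncomputable def oneFam : Fam where
  W := fun _ => {1}
  g := 1
  card_le := fun N => by simp
  lower := fun N w hw => by
    rw [Finset.mem_singleton] at hw
    subst hw
    rw [Real.exp_le_one_iff]
    have : (0 : ℝ) ≤ N := Nat.cast_nonneg N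
    push_cast
    linarith
  upper := fun N w hw => by
    rw [Finset.mem_singleton] at hw
    subst hw
    exact Real.one_le_exp (by positivity)

theorem hasMult_of_hasW {α : ℝ} (h : HasW oneFam α) : HasMult α := by
  obtain ⟨C, hC, hm⟩ := h
  refine ⟨C, hC, fun k p H hk1 hp hk hH hcoef => ?_⟩
  have hv : (fun c : Fin (k + 1) => p.coeff (c : ℕ)) ≠ 0 := by
    intro h0
    apply hp
    ext i
    by_cases hi : i < k + 1
    · exact congrFun h0 ⟨i, hi⟩
    · rw [coeff_zero]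
      exact coeff_eq_zero_of_natDegree_lt (by omega)
  have h1 := hm k 0 (fun _ => 1) _ H hk1 (fun c => by simp [oneFam]) hv hH (fun c => hcoef _)
  have h2 : mn (fun _ : Fin (k + 1) => (1 : ℝ)) = 1 := by
    obtain ⟨c, hc⟩ := mn_mem (fun _ : Fin (k + 1) => (1 : ℝ))
    exact hc
  rw [h2, div_one] at h1
  simp only [Nat.cast_zero, add_zero, Real.log_one, mul_one, Fin.val_succ] at h1
  rw [aeval_eq_sum α p k hk]
  exact h1

/-- a positive lower bound for each degree and height -/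
theorem HasMult.pos {α : ℝ} (h : HasMult α) (k : ℕ) (hk1 : 1 ≤ k) (H : ℝ) (hH : 1 ≤ H) : ∃ c : ℝ, 0 < c ∧
    ∀ p : ℤ[X], p ≠ 0 → p.natDegree ≤ k → (∀ i, |(p.coeff i : ℝ)| ≤ H) → c ≤ |aeval α p| := by
  obtain ⟨C, hC, hm⟩ := h
  refine ⟨Real.exp (-(C * (k : ℝ) ^ 5 * (1 + Real.log (1 + Real.log H)))) / H ^ k, by positivity, fun p hp hk hcoef => ?_⟩
  rw [div_le_iff₀ (by positivity)]
  refine (hm k p H hk1 hp hk hH hcoef).trans ?_
  apply mul_le_mul_of_nonneg_left _ (abs_nonneg _)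
  have := Finset.prod_le_prod (s := Finset.univ) (f := fun i : Fin k => max 1 |(p.coeff (i + 1) : ℝ)|)
    (g := fun _ => H) (fun i _ => by positivity) (fun i _ => max_le hH (hcoef _))
  simpa using this

end Pool.Agent.Helper46.TC
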