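import Pool.Agent.Helper46.TC.Def

/-!
# The family of `S`-units
-/

set_option autoImplicit false

namespace Pool.Agent.Helper46.TC

/-- products of powers of the elements of `S`, with exponents of absolute value at most `N` -/
noncomputable def unitW (S : Finset ℕ) (N : ℕ) : Finset ℝ :=
  (Fintype.piFinset fun _ : S => Finset.Icc (-(N : ℤ)) N).image fun e => ∏ p : S, ((max (p : ℕ) 1 : ℕ) : ℝ) ^ (e p)

theorem unitW_bound (S : Finset ℕ) (N : ℕ) (w : ℝ) (hw : w ∈ unitW S N) :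
    ∃ x : ℝ, w = Real.exp x ∧ |x| ≤ (∑ p ∈ S, (p : ℝ)) * N := by
  unfold unitW at hw
  rw [Finset.mem_image] at hw
  obtain ⟨e, he, rfl⟩ := hw
  rw [Fintype.mem_piFinset] at he
  refine ⟨∑ p : S, (e p : ℝ) * Real.log ((max (p : ℕ) 1 : ℕ) : ℝ), ?_, ?_⟩
  · rw [Real.exp_sum]
    refine Finset.prod_congr rfl fun p _ => ?_
    have h1 : (0 : ℝ) < ((max (p : ℕ) 1 : ℕ) : ℝ) := by
      have : 1 ≤ max (p : ℕ) 1 := le_max_right _ _
      exact_mod_cast this
    rw [mul_comm, Real.exp_mul, Real.exp_log h1, Real.rpow_intCast]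
  · refine (Finset.abs_sum_le_sum_abs _ _).trans ?_
    rw [Finset.sum_mul, ← Finset.sum_coe_sort S (fun p : ℕ => (p : ℝ) * (N : ℝ))]
    apply Finset.sum_le_sum
    intro p _
    have h1 : (1 : ℝ) ≤ ((max (p : ℕ) 1 : ℕ) : ℝ) := by exact_mod_cast le_max_right _ _
    have h2 : 0 ≤ Real.log ((max (p : ℕ) 1 : ℕ) : ℝ) := Real.log_nonneg h1
    have h3 : Real.log ((max (p : ℕ) 1 : ℕ) : ℝ) ≤ (p : ℕ) := by
      have h4 := Real.log_le_sub_one_of_pos (by linarith : (0 : ℝ) < ((max (p : ℕ) 1 : ℕ) : ℝ))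
      have h5 : ((max (p : ℕ) 1 : ℕ) : ℝ) ≤ (p : ℕ) + 1 := by
        have : max (p : ℕ) 1 ≤ p + 1 := max_le (Nat.le_succ _) (Nat.succ_le_succ (Nat.zero_le _))
        exact_mod_cast this
      linarith
    have h4 : |(e p : ℝ)| ≤ N := by
      have h5 := he p
      rw [Finset.mem_Icc] at h5
      rw [abs_le]
      constructor
      · exact_mod_cast h5.1
      · exact_mod_cast h5.2
    rw [abs_mul, abs_of_nonneg h2, mul_comm]
    exact mul_le_mul h3 h4 (abs_nonneg _) (Nat.cast_nonneg _)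

/-- the family of `S`-units; the conditions only make sense when the elements of `S` are positive -/
noncomputable def unitFam (S : Finset ℕ) : Fam where
  W := unitW S
  g := 2 * S.card + ∑ p ∈ S, p
  card_le := fun N => by
    have h1 : (unitW S N).card ≤ (2 * N + 1) ^ S.card := by
      unfold unitW
      refine Finset.card_image_le.trans ?_
      rw [Fintype.card_piFinset]
      simp only [Finset.prod_const, Finset.card_univ, Fintype.card_coe, Int.card_Icc]
      apply Nat.pow_le_pow_left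
      omega
    have h2 : 2 * N + 1 ≤ (N + 1) ^ 2 := by nlinarith
    calc (unitW S N).card ≤ (2 * N + 1) ^ S.card := h1
      _ ≤ ((N + 1) ^ 2) ^ S.card := Nat.pow_le_pow_left h2 _
      _ = (N + 1) ^ (2 * S.card) := by rw [← pow_mul]
      _ ≤ _ := Nat.pow_le_pow_right (Nat.succ_pos N) (Nat.le_add_right _ _)
  lower := fun N w hw => by
    obtain ⟨x, rfl, hx⟩ := unitW_bound S N w hw
    apply Real.exp_le_exp.2
    have h1 := (abs_le.1 hx).1
    push_cast
    have h2 : (0 : ℝ) ≤ ∑ p ∈ S, (p : ℝ) := Finset.sum_nonneg fun p _ => Nat.cast_nonneg p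
    have h3 : (0 : ℝ) ≤ S.card := Nat.cast_nonneg _
    have h4 : (0 : ℝ) ≤ N := Nat.cast_nonneg _
    nlinarith [mul_nonneg h3 h4]
  upper := fun N w hw => by
    obtain ⟨x, rfl, hx⟩ := unitW_bound S N w hw
    apply Real.exp_le_exp.2
    have h1 := (abs_le.1 hx).2
    push_cast
    have h2 : (0 : ℝ) ≤ ∑ p ∈ S, (p : ℝ) := Finset.sum_nonneg fun p _ => Nat.cast_nonneg p
    have h3 : (0 : ℝ) ≤ S.card := Nat.cast_nonneg _
    have h4 : (0 : ℝ) ≤ N := Nat.cast_nonneg _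
    nlinarith [mul_nonneg h3 h4]

/-- `S`-units are members of the family -/
theorem mem_unitFam (S : Finset ℕ) (hS : ∀ p ∈ S, 1 ≤ p) (N : ℕ) (e : ℕ → ℤ) (he : ∀ p ∈ S, |e p| ≤ N) :
    ∏ p ∈ S, (p : ℝ) ^ (e p) ∈ (unitFam S).W N := by
  show _ ∈ unitW S N
  unfold unitW
  rw [Finset.mem_image]
  refine ⟨fun p => e p, ?_, ?_⟩
  · rw [Fintype.mem_piFinset]
    intro p
    rw [Finset.mem_Icc]
    exact abs_le.1 (he p p.2)
  · rw [← Finset.prod_coe_sort S (fun p : ℕ => (p : ℝ) ^ (e p))]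
    refine Finset.prod_congr rfl fun p _ => ?_
    rw [max_eq_left (hS p p.2)]

/-- inverses of `S`-units are members of the family -/
theorem inv_mem_unitFam (S : Finset ℕ) (hS : ∀ p ∈ S, 1 ≤ p) (N : ℕ) (e : ℕ → ℤ) (he : ∀ p ∈ S, |e p| ≤ N) :
    (∏ p ∈ S, (p : ℝ) ^ (e p))⁻¹ ∈ (unitFam S).W N := by
  have h1 := mem_unitFam S hS N (fun p => -e p) (fun p hp => by rw [abs_neg]; exact he p hp)
  have h2 : (∏ p ∈ S, (p : ℝ) ^ (e p))⁻¹ = ∏ p ∈ S, (p : ℝ) ^ (-e p) := by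
    rw [← Finset.prod_inv_distrib]
    exact Finset.prod_congr rfl fun p _ => (zpow_neg _ _).symm
  rw [h2]
  exact h1

end Pool.Agent.Helper46.TC
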