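import Pool.Agent.Helper46.TC.Unif
import Pool.Agent.Helper46.TC.AC
import Pool.Agent.Helper46.TC.Units
import Pool.Agent.Helper32.DO.DimOne
import Pool.Agent.Helper71.AAM.Main

/-!
# Assembly
-/

set_option autoImplicit false

namespace Pool.Agent.Helper46.TC

open MeasureTheory Set Polynomial

/-- the hypothesis of `aam` from the multiplicative measure -/
theorem hd_of_mult {a₀ : ℝ} (ha₀ : 1 < a₀) (h : HasMult a₀) :
    ∀ A ε : ℝ, 0 < ε → ∃ c C : ℝ, 0 < c ∧ c < 1 ∧ 0 < C ∧ ∀ N : ℕ, 1 ≤ N → ∀ ξ : ℝ,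
      Real.exp (-(ε / 2 * N)) ≤ |ξ| → |ξ| ≤ Real.exp (A * N) → ∀ x : ℝ,
      ({n : ℕ | 1 ≤ n ∧ n ≤ N ∧ |ξ * a₀ ^ n - x - round (ξ * a₀ ^ n - x)| ≤
        Real.exp (-(ε * N))}.ncard : ℝ) ≤ C * (N : ℝ) ^ (1 - c) := by
  intro A ε hε
  obtain ⟨c, C, hc0, hc1, hC, hm⟩ := part_one ha₀ h 0 A ε hε
  refine ⟨c, C, hc0, hc1, hC, ?_⟩
  intro N hN ξ h1 h2 x
  have h3 := hm N hN ξ h1 h2 (Polynomial.C x) (by rw [Polynomial.natDegree_C])
  simpa [dist1] using h3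

theorem aam_of_mult {a₀ : ℝ} (ha₀ : 1 < a₀) (h : HasMult a₀) (s : ℕ) (A ε : ℝ) (hε : 0 < ε) :
    ∃ c : ℝ, 0 < c ∧ ∃ N₀ : ℕ, ∀ N : ℕ, N₀ ≤ N → ∀ K : ℕ, Real.exp (ε * N) ≤ K →
      ∀ ξ : ℝ, Real.exp (-(ε / 4 * N)) ≤ |ξ| → |ξ| ≤ Real.exp (A * N) → ∀ θ : ℝ,
      ∀ S : Finset ℕ, S ⊆ Finset.Icc 1 N →
      ({k : ℕ | 1 ≤ k ∧ k ≤ K ∧ ¬ ∀ P : ℝ[X], P.natDegree ≤ s → ∀ α β : ℝ,
        0 ≤ α → α < β → β ≤ 1 →
        |((S.filter (fun n : ℕ =>
            α ≤ Int.fract ((k + θ) * ξ * a₀ ^ n + P.eval (n : ℝ)) ∧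
            Int.fract ((k + θ) * ξ * a₀ ^ n + P.eval (n : ℝ)) < β)).card : ℝ) -
          (β - α) * S.card| ≤ (N : ℝ) ^ (1 - c)}.ncard : ℝ) ≤ K * (N : ℝ) ^ (-c) :=
  Pool.Agent.Helper71.AAM.aam ha₀ (hd_of_mult ha₀ h) s A ε hε

/-- almost all points of a tree have the weighted and the uniform measures -/
theorem ae_all (T : Tree) (hT : 0 ≤ r0 T) :
    ∀ᵐ z ∂P T.b, (∀ S : Finset ℕ, HasW (unitFam S) (T.pt z)) ∧ HasUnif (T.pt z) := by
  have h1 : ∀ᵐ z ∂P T.b, ∀ S : Finset ℕ, HasW (unitFam S) (T.pt z) :=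
    ae_all_iff.2 fun S => ae_hasW T hT (unitFam S)
  filter_upwards [h1, ae_good T hT] with z h1 h2
  exact ⟨h1, h2.2⟩

/-- the unweighted measure -/
theorem hasMult_of_unit {α : ℝ} (h : HasW (unitFam ∅) α) : HasMult α := by
  obtain ⟨C, hC, hm⟩ := h
  apply hasMult_of_hasW
  refine ⟨C, hC, fun k N w v H hk hw hv hH hc => hm k N w v H hk (fun c => ?_) hv hH hc⟩
  have h1 := hw c
  have h2 : w c = 1 := by
    simpa [oneFam] using h1
  rw [h2]
  have h3 := mem_unitFam ∅ (by simp) N (fun _ => 0) (by simp)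
  simpa using h3

theorem measure_ne_zero_of_ae (T : Tree) (A : Set ℝ) (h : ∀ᵐ z ∂P T.b, T.pt z ∈ A) : P T.b {z | T.pt z ∈ A} ≠ 0 := by
  intro h0
  have h1 : P T.b univ ≤ 0 := by
    have h2 : (univ : Set Om) = {z | T.pt z ∈ A} ∪ {z | T.pt z ∈ A}ᶜ := (union_compl_self _).symm
    rw [h2]
    refine (measure_union_le _ _).trans ?_
    rw [h0, zero_add]
    exact le_of_eq (by rw [ae_iff] at h; exact h)
  rw [measure_univ] at h1
  exact absurd h1 (by norm_num)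

/-- sets of parameters that contain almost all points of the trees have dimension one -/
theorem dimH_eq_one (A : Set ℝ) (h : ∀ s : ℝ, 0 < s → s < 1 → ∃ T : Tree, T.s = s ∧ ∀ᵐ z ∂P T.b, T.pt z ∈ A) :
    dimH A = 1 := by
  apply le_antisymm
  · refine (dimH_mono (subset_univ A)).trans ?_
    rw [Real.dimH_univ]
  · refine le_of_forall_lt fun c hc => ?_
    obtain ⟨s, hs1, hs2⟩ := ENNReal.lt_iff_exists_nnreal_btwn.1 hc
    have hs0 : (0 : ℝ) < s := by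
      have h1 : (0 : ENNReal) < s := lt_of_le_of_lt zero_le hs1
      exact_mod_cast h1
    obtain ⟨T, hTs, hae⟩ := h s hs0 (by exact_mod_cast hs2)
    have h1 := Pool.Agent.Helper32.DO.le_dimH T A (measure_ne_zero_of_ae T A hae)
    rw [hTs, ENNReal.ofReal_coe_nnreal] at h1
    exact hs1.trans_le h1

/-- the measure has no atoms -/
theorem measure_point (T : Tree) (y : ℝ) : P T.b {z | T.pt z = y} = 0 := by
  obtain ⟨C, hC, hdec⟩ := decay0 T
  have hs := T.hs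
  have h1 : ∀ r : ℝ, 0 < r → P T.b {z | T.pt z = y} ≤ ENNReal.ofReal (C * r ^ T.s) := by
    intro r hr
    refine le_trans (measure_mono ?_) (hdec y r hr)
    intro z hz
    have hz' : T.pt z = y := hz
    show |T.pt z - y| < r
    rw [hz', sub_self, abs_zero]
    exact hr
  have h2 : Filter.Tendsto (fun r : ℝ => ENNReal.ofReal (C * r ^ T.s)) (nhdsWithin 0 (Ioi 0)) (nhds 0) := by
    have h3 : Filter.Tendsto (fun r : ℝ => C * r ^ T.s) (nhdsWithin 0 (Ioi 0)) (nhds (C * 0 ^ T.s)) :=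
      ((Real.continuousAt_rpow_const 0 T.s (Or.inr hs.le)).tendsto.mono_left nhdsWithin_le_nhds).const_mul C
    rw [Real.zero_rpow hs.ne', mul_zero] at h3
    have h4 := (ENNReal.continuous_ofReal.tendsto 0).comp h3
    rwa [ENNReal.ofReal_zero] at h4
  have h3 := ge_of_tendsto h2 (by
    filter_upwards [self_mem_nhdsWithin] with r hr
    exact h1 r hr)
  exact le_antisymm h3 zero_le

theorem ae_poly_ne (T : Tree) (p : ℝ[X]) (hp : p ≠ 0) : ∀ᵐ z ∂P T.b, p.eval (T.pt z) ≠ 0 := by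
  classical
  rw [ae_iff]
  have h1 : {z : Om | ¬ p.eval (T.pt z) ≠ 0} ⊆ ⋃ y ∈ p.roots.toFinset, {z | T.pt z = y} := by
    intro z hz
    have hz' : p.eval (T.pt z) = 0 := by
      by_contra h
      exact hz h
    rw [mem_iUnion₂]
    refine ⟨T.pt z, ?_, rfl⟩
    rw [Multiset.mem_toFinset, mem_roots hp]
    exact hz'
  refine measure_mono_null h1 ?_
  exact le_antisymm ((measure_biUnion_finset_le _ _).trans
    (le_of_eq (Finset.sum_eq_zero fun y _ => measure_point T y))) zero_le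

/-- almost surely no value is exactly at a target -/
theorem ae_ne_target (T : Tree) (Q : ℕ → ℝ[X]) (hQ : ∀ i, Q i ≠ 0) (ξ : ℕ → ℕ → ℝ) :
    ∀ᵐ z ∂P T.b, ∀ i n : ℕ, ∀ m : ℤ, 1 ≤ n → (Q i).eval (T.pt z) * T.pt z ^ n - ξ i n - m ≠ 0 := by
  rw [ae_all_iff]; intro i
  rw [ae_all_iff]; intro n
  rw [ae_all_iff]; intro m
  by_cases hn : 1 ≤ n
  swap
  · filter_upwards with z h
    exact absurd h hn
  have hp : Q i * X ^ n - C (ξ i n + m) ≠ 0 := by
    intro h0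
    have h1 : Q i * X ^ n = C (ξ i n + m) := sub_eq_zero.1 h0
    have h2 : (Q i * X ^ n).natDegree = (Q i).natDegree + n := by
      rw [natDegree_mul (hQ i) (pow_ne_zero n X_ne_zero), natDegree_X_pow]
    rw [h1, natDegree_C] at h2
    omega
  filter_upwards [ae_poly_ne T _ hp] with z hz _
  rw [eval_sub, eval_mul, eval_pow, eval_X, eval_C] at hz
  intro h
  apply hz
  linarith

/-- from all large exponents to all exponents -/
theorem gap_all (y : ℕ → ℝ) (h : ∃ δ : ℝ, 0 < δ ∧ ∃ n0 : ℕ, ∀ n, n0 ≤ n → ∀ m : ℤ, δ ≤ |y n - m|)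
    (h0 : ∀ n : ℕ, 1 ≤ n → ∀ m : ℤ, y n - m ≠ 0) :
    ∃ δ : ℝ, 0 < δ ∧ ∀ n : ℕ, 1 ≤ n → δ ≤ |y n - round (y n)| := by
  obtain ⟨δ, hδ, n0, hn⟩ := h
  have h1 : ∀ N : ℕ, ∃ δ' : ℝ, 0 < δ' ∧ ∀ n : ℕ, 1 ≤ n → n ≤ N → δ' ≤ |y n - round (y n)| := by
    intro N
    induction N with
    | zero => exact ⟨1, one_pos, fun n h1 h2 => by omega⟩
    | succ N ih =>
      obtain ⟨δ', hδ', hN⟩ := ih
      refine ⟨min δ' |y (N + 1) - round (y (N + 1))|, lt_min hδ' (abs_pos.2 (h0 (N + 1) (by omega) _)), ?_⟩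
      intro n h1 h2
      rcases Nat.lt_or_ge n (N + 1) with h3 | h3
      · exact (min_le_left _ _).trans (hN n h1 (by omega))
      · have : n = N + 1 := by omega
        subst this
        exact min_le_right _ _
  obtain ⟨δ', hδ', hN⟩ := h1 n0
  refine ⟨min δ δ', lt_min hδ hδ', fun n h1 => ?_⟩
  rcases le_total n n0 with h2 | h2
  · exact (min_le_right _ _).trans (hN n h1 h2)
  · exact (min_le_left _ _).trans (hn n h2 _)

end Pool.Agent.Helper46.TC
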