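import Mathlib

/-!
# Small values of polynomials are taken near roots
-/

set_option autoImplicit false

namespace Pool.Agent.Helper46.TC

open Set Polynomial

theorem norm_prod_map {ι : Type*} (f : ι → ℂ) (m : Multiset ι) :
    ‖(m.map f).prod‖ = (m.map fun z => ‖f z‖).prod := by
  induction m using Multiset.induction_on with
  | empty => simp
  | cons a m ih => simp [ih]

theorem abs_eval_eq (f : ℝ[X]) (x : ℝ) :
    |f.eval x| = |f.leadingCoeff| *
      ((f.map (algebraMap ℝ ℂ)).roots.map fun z => ‖(x : ℂ) - z‖).prod := by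
  have hs : (f.map (algebraMap ℝ ℂ)).Splits := IsAlgClosed.splits _
  have h := hs.eval_eq_prod_roots (x : ℂ)
  have h1 : (f.map (algebraMap ℝ ℂ)).eval (x : ℂ) = ((f.eval x : ℝ) : ℂ) := by
    have := Polynomial.eval_map_apply (p := f) (algebraMap ℝ ℂ) x
    simpa using this
  rw [h1] at h
  have h2 : |f.eval x| = ‖((f.eval x : ℝ) : ℂ)‖ := by rw [Complex.norm_real, Real.norm_eq_abs]
  rw [h2, h, norm_mul, leadingCoeff_map, norm_prod_map]
  congr 1
  simp

theorem prod_le_prod_of_le (m : Multiset ℂ) (u v : ℂ → ℝ) (η : ℝ) (hη : 0 ≤ η) (hv : ∀ z ∈ m, 0 ≤ v z)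
    (h : ∀ z ∈ m, η * v z ≤ u z) : η ^ (Multiset.card m) * (m.map v).prod ≤ (m.map u).prod := by
  induction m using Multiset.induction_on with
  | empty => simp
  | cons a m ih =>
    simp only [Multiset.card_cons, Multiset.map_cons, Multiset.prod_cons]
    have h1 := ih (fun z hz => hv z (Multiset.mem_cons_of_mem hz)) fun z hz => h z (Multiset.mem_cons_of_mem hz)
    have h2 := h a (Multiset.mem_cons_self a m)
    have h3 : 0 ≤ (m.map v).prod := by
      apply Multiset.prod_nonneg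
      intro b hb
      obtain ⟨z, hz, rfl⟩ := Multiset.mem_map.1 hb
      exact hv z (Multiset.mem_cons_of_mem hz)
    have h4 := hv a (Multiset.mem_cons_self a m)
    calc η ^ (Multiset.card m + 1) * (v a * (m.map v).prod)
        = (η * v a) * (η ^ Multiset.card m * (m.map v).prod) := by ring
      _ ≤ u a * (m.map u).prod := by
          apply mul_le_mul h2 h1 (by positivity)
          exact (mul_nonneg hη h4).trans h2

/-- a relatively small value is taken only near (the real part of) a root -/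
theorem root_near (f : ℝ[X]) (D : ℕ) (hD : f.natDegree ≤ D) (η : ℝ) (hη : 0 < η) (hη1 : η ≤ 1 / 2)
    (x x0 : ℝ) (h : |f.eval x| < η ^ D * |f.eval x0|) :
    ∃ z ∈ (f.map (algebraMap ℝ ℂ)).roots, |x - z.re| < 2 * η * |x - x0| := by
  by_contra hcon
  push Not at hcon
  have hz : ∀ z ∈ (f.map (algebraMap ℝ ℂ)).roots, η * ‖(x0 : ℂ) - z‖ ≤ ‖(x : ℂ) - z‖ := by
    intro z hz
    have h1 := hcon z hz
    have h2 : |x - z.re| ≤ ‖(x : ℂ) - z‖ := by
      have := Complex.abs_re_le_norm ((x : ℂ) - z)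
      simpa using this
    have h3 : ‖(x0 : ℂ) - z‖ ≤ |x - x0| + ‖(x : ℂ) - z‖ := by
      have h4 : (x0 : ℂ) - z = ((x0 - x : ℝ) : ℂ) + ((x : ℂ) - z) := by push_cast; ring
      rw [h4]
      refine (norm_add_le _ _).trans ?_
      rw [Complex.norm_real, Real.norm_eq_abs, abs_sub_comm]
    have h5 : 0 ≤ |x - x0| := abs_nonneg _
    have h6 : 0 ≤ ‖(x : ℂ) - z‖ := norm_nonneg _
    nlinarith
  have hcard : Multiset.card (f.map (algebraMap ℝ ℂ)).roots ≤ D :=
    (Polynomial.card_roots' _).trans ((natDegree_map_le).trans hD)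
  have h1 := prod_le_prod_of_le (f.map (algebraMap ℝ ℂ)).roots (fun z => ‖(x : ℂ) - z‖)
    (fun z => ‖(x0 : ℂ) - z‖) η hη.le (fun _ _ => norm_nonneg _) hz
  have h2 : η ^ D ≤ η ^ (Multiset.card (f.map (algebraMap ℝ ℂ)).roots) :=
    pow_le_pow_of_le_one hη.le (by linarith) hcard
  have h3 : 0 ≤ ((f.map (algebraMap ℝ ℂ)).roots.map fun z => ‖(x0 : ℂ) - z‖).prod := by
    apply Multiset.prod_nonneg
    intro b hb
    obtain ⟨z, hz, rfl⟩ := Multiset.mem_map.1 hb
    exact norm_nonneg _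
  rw [abs_eval_eq f x, abs_eval_eq f x0] at h
  have h4 : η ^ D * (|f.leadingCoeff| * ((f.map (algebraMap ℝ ℂ)).roots.map fun z => ‖(x0 : ℂ) - z‖).prod) ≤
      |f.leadingCoeff| * ((f.map (algebraMap ℝ ℂ)).roots.map fun z => ‖(x : ℂ) - z‖).prod := by
    have h5 := mul_le_mul_of_nonneg_right h2 h3
    have h6 := mul_le_mul_of_nonneg_left (h5.trans h1) (abs_nonneg f.leadingCoeff)
    linarith
  linarith

end Pool.Agent.Helper46.TC
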