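import Mathlib

/-!
# Squared norms of wedge products

For integer vectors `u₁, …, u_r` in `ℤ^(k+1)` the function `Psi` is `r!` times the squared norm of the wedge
product of the vectors `tv A B x (u_i)`, where `tv A B x v = (Σ A_c v_c x^c, B_1 v_1, …, B_k v_k)`.
-/

set_option autoImplicit false

namespace Pool.Agent.Helper46.TC

open Set Polynomial Matrix

variable {k : ℕ}

/-- transformed vector -/
noncomputable def tv (A B : Fin (k + 1) → ℝ) (x : ℝ) (v : Fin (k + 1) → ℤ) : Fin (k + 1) → ℝ :=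
  Fin.cons (∑ c : Fin (k + 1), A c * (v c : ℝ) * x ^ (c : ℕ)) (fun i : Fin k => B i.succ * (v i.succ : ℝ))

/-- squared norm of the transformed vector -/
noncomputable def nrm (A B : Fin (k + 1) → ℝ) (x : ℝ) (v : Fin (k + 1) → ℤ) : ℝ := ∑ c, tv A B x v c ^ 2

/-- sum of the squares of all minors -/
noncomputable def Psi (A B : Fin (k + 1) → ℝ) (x : ℝ) {r : ℕ} (u : Fin r → Fin (k + 1) → ℤ) : ℝ :=
  ∑ σ : Fin r → Fin (k + 1), (det (of fun i j => tv A B x (u i) (σ j))) ^ 2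

theorem tv_sum (A B : Fin (k + 1) → ℝ) (x : ℝ) {r : ℕ} (M : Fin r → ℤ) (b : Fin r → Fin (k + 1) → ℤ) :
    tv A B x (∑ j, M j • b j) = ∑ j, (M j : ℝ) • tv A B x (b j) := by
  ext c
  rw [Finset.sum_apply]
  refine Fin.cases ?_ (fun i => ?_) c
  · simp only [tv, Fin.cons_zero, Finset.sum_apply, Pi.smul_apply, smul_eq_mul]
    push_cast
    simp only [Finset.mul_sum, Finset.sum_mul]
    rw [Finset.sum_comm]
    refine Finset.sum_congr rfl fun j _ => Finset.sum_congr rfl fun c _ => by ring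
  · simp only [tv, Fin.cons_succ, Finset.sum_apply, Pi.smul_apply, smul_eq_mul]
    push_cast
    rw [Finset.mul_sum]
    refine Finset.sum_congr rfl fun j _ => by ring

theorem Psi_change (A B : Fin (k + 1) → ℝ) (x : ℝ) {r : ℕ} (u b : Fin r → Fin (k + 1) → ℤ) (M : Matrix (Fin r) (Fin r) ℤ)
    (h : ∀ i, u i = ∑ j, M i j • b j) : Psi A B x u = ((M.det : ℤ) : ℝ) ^ 2 * Psi A B x b := by
  unfold Psi
  rw [Finset.mul_sum]
  refine Finset.sum_congr rfl fun σ _ => ?_
  rw [← mul_pow]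
  congr 1
  have h1 : (of fun i j => tv A B x (u i) (σ j)) = M.map (Int.cast : ℤ → ℝ) * (of fun i j => tv A B x (b i) (σ j)) := by
    ext i j
    rw [Matrix.mul_apply]
    simp only [of_apply, Matrix.map_apply]
    rw [h i, tv_sum, Finset.sum_apply]
    rfl
  rw [h1, det_mul]
  congr 1
  exact (Int.cast_det (R := ℝ) M).symm

theorem Psi_nonneg (A B : Fin (k + 1) → ℝ) (x : ℝ) {r : ℕ} (u : Fin r → Fin (k + 1) → ℤ) : 0 ≤ Psi A B x u :=
  Finset.sum_nonneg fun _ _ => sq_nonneg _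

theorem Psi_cons (A B : Fin (k + 1) → ℝ) (x : ℝ) {r : ℕ} (v : Fin (k + 1) → ℤ) (u : Fin r → Fin (k + 1) → ℤ) :
    Psi A B x (Fin.cons v u : Fin (r + 1) → Fin (k + 1) → ℤ) ≤ (r + 1) ^ 2 * (nrm A B x v * Psi A B x u) := by
  unfold Psi
  have hexp : ∀ σ : Fin (r + 1) → Fin (k + 1),
      (det (of fun i j => tv A B x ((Fin.cons v u : Fin (r + 1) → Fin (k + 1) → ℤ) i) (σ j))) ^ 2 ≤
      (r + 1) * ∑ j : Fin (r + 1), tv A B x v (σ j) ^ 2 *
        (det (of fun i l => tv A B x (u i) (σ (j.succAbove l)))) ^ 2 := by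
    intro σ
    rw [det_succ_row_zero]
    refine (sq_sum_le_card_mul_sum_sq).trans (le_of_eq ?_)
    rw [Finset.card_univ, Fintype.card_fin]
    push_cast
    congr 1
    refine Finset.sum_congr rfl fun j _ => ?_
    rw [mul_pow, mul_pow, ← pow_mul, mul_comm (j : ℕ) 2, pow_mul, neg_one_sq, one_pow, one_mul]
    rfl
  refine (Finset.sum_le_sum fun σ _ => hexp σ).trans (le_of_eq ?_)
  rw [← Finset.mul_sum, Finset.sum_comm]
  have hj : ∀ j : Fin (r + 1), ∑ σ : Fin (r + 1) → Fin (k + 1), tv A B x v (σ j) ^ 2 *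
        (det (of fun i l => tv A B x (u i) (σ (j.succAbove l)))) ^ 2 =
      nrm A B x v * ∑ σ : Fin r → Fin (k + 1), (det (of fun i j => tv A B x (u i) (σ j))) ^ 2 := by
    intro j
    rw [← (Fin.insertNthEquiv (fun _ => Fin (k + 1)) j).sum_comp, Fintype.sum_prod_type]
    unfold nrm
    rw [Finset.sum_mul]
    refine Finset.sum_congr rfl fun c _ => ?_
    rw [Finset.mul_sum]
    refine Finset.sum_congr rfl fun τ _ => ?_
    simp [Fin.insertNthEquiv]
  rw [Finset.sum_congr rfl fun j _ => hj j, Finset.sum_const, Finset.card_univ, Fintype.card_fin, nsmul_eq_mul]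
  push_cast
  ring

/-- entries as polynomials in `x` -/
noncomputable def tvp (A B : Fin (k + 1) → ℝ) (v : Fin (k + 1) → ℤ) : Fin (k + 1) → ℝ[X] :=
  Fin.cons (∑ c : Fin (k + 1), C (A c * (v c : ℝ)) * X ^ (c : ℕ)) (fun i : Fin k => C (B i.succ * (v i.succ : ℝ)))

theorem eval_tvp (A B : Fin (k + 1) → ℝ) (x : ℝ) (v : Fin (k + 1) → ℤ) (c : Fin (k + 1)) : (tvp A B v c).eval x = tv A B x v c := by
  refine Fin.cases ?_ (fun i => ?_) c
  · simp [tvp, tv, eval_finsetSum]
  · simp [tvp, tv]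

theorem natDegree_tvp (A B : Fin (k + 1) → ℝ) (v : Fin (k + 1) → ℤ) (c : Fin (k + 1)) : (tvp A B v c).natDegree ≤ k := by
  refine Fin.cases ?_ (fun i => ?_) c
  · simp only [tvp, Fin.cons_zero]
    refine natDegree_sum_le_of_forall_le _ _ fun c _ => ?_
    exact (natDegree_C_mul_X_pow_le _ _).trans (Nat.lt_succ_iff.1 c.2)
  · simp only [tvp, Fin.cons_succ]
    rw [natDegree_C]
    exact Nat.zero_le _

theorem natDegree_det_le {r : ℕ} (M : Matrix (Fin r) (Fin r) ℝ[X]) (D : ℕ) (h : ∀ i j, (M i j).natDegree ≤ D) :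
    M.det.natDegree ≤ r * D := by
  rw [det_apply]
  refine natDegree_sum_le_of_forall_le _ _ fun σ _ => ?_
  have h1 : (∏ i, M (σ i) i).natDegree ≤ r * D := by
    refine (natDegree_prod_le _ _).trans ?_
    refine (Finset.sum_le_sum fun i _ => h (σ i) i).trans ?_
    simp
  rcases Int.units_eq_one_or (Equiv.Perm.sign σ) with h2 | h2
  · rw [h2, one_smul]; exact h1
  · rw [h2, Units.neg_smul, one_smul, natDegree_neg]; exact h1

/-- `Psi` is a polynomial in `x` -/
noncomputable def PsiP (A B : Fin (k + 1) → ℝ) {r : ℕ} (u : Fin r → Fin (k + 1) → ℤ) : ℝ[X] :=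
  ∑ σ : Fin r → Fin (k + 1), (det (of fun i j => tvp A B (u i) (σ j))) ^ 2

theorem eval_PsiP (A B : Fin (k + 1) → ℝ) (x : ℝ) {r : ℕ} (u : Fin r → Fin (k + 1) → ℤ) : (PsiP A B u).eval x = Psi A B x u := by
  unfold PsiP Psi
  rw [eval_finsetSum]
  refine Finset.sum_congr rfl fun σ _ => ?_
  rw [eval_pow]
  congr 1
  rw [← coe_evalRingHom, RingHom.map_det]
  congr 1
  ext i j
  simp [eval_tvp]

theorem natDegree_PsiP (A B : Fin (k + 1) → ℝ) {r : ℕ} (u : Fin r → Fin (k + 1) → ℤ) :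
    (PsiP A B u).natDegree ≤ 2 * (r * k) := by
  unfold PsiP
  refine natDegree_sum_le_of_forall_le _ _ fun σ _ => ?_
  refine natDegree_pow_le.trans ?_
  exact Nat.mul_le_mul_left 2 (natDegree_det_le _ k fun i j => natDegree_tvp _ _ _ _)

theorem continuous_Psi (A B : Fin (k + 1) → ℝ) {r : ℕ} (u : Fin r → Fin (k + 1) → ℤ) : Continuous fun x => Psi A B x u := by
  have : (fun x => Psi A B x u) = fun x => (PsiP A B u).eval x := by
    funext x; rw [eval_PsiP]
  rw [this]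
  exact (PsiP A B u).continuous

end Pool.Agent.Helper46.TC
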