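import Pool.Agent.Helper46.TC.Lower

/-!
# Where `Psi` is at most one, it varies slowly
-/

set_option autoImplicit false

namespace Pool.Agent.Helper46.TC

open Set Polynomial Matrix

variable {k : ℕ}

theorem pow_sub_le {Θ x y : ℝ} (hΘ : 1 ≤ Θ) (hx : 0 ≤ x) (hxΘ : x ≤ Θ) (hy : 0 ≤ y) (hyΘ : y ≤ Θ) (c : ℕ) :
    |x ^ c - y ^ c| ≤ c * Θ ^ c * |x - y| := by
  induction c with
  | zero => simp
  | succ c ih =>
    have h1 : x ^ (c + 1) - y ^ (c + 1) = x * (x ^ c - y ^ c) + y ^ c * (x - y) := by ring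
    have h2 : |y ^ c| ≤ Θ ^ (c + 1) := by
      rw [abs_of_nonneg (pow_nonneg hy _)]
      exact (pow_le_pow_left₀ hy hyΘ c).trans (pow_le_pow_right₀ hΘ (Nat.le_succ c))
    have h3 : 0 ≤ |x - y| := abs_nonneg _
    rw [h1]
    refine (abs_add_le _ _).trans ?_
    rw [abs_mul, abs_mul, abs_of_nonneg hx]
    push_cast
    calc x * |x ^ c - y ^ c| + |y ^ c| * |x - y| ≤ Θ * (c * Θ ^ c * |x - y|) + Θ ^ (c + 1) * |x - y| := by
          gcongr
      _ = _ := by ring

variable (A B : Fin (k + 1) → ℝ)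

/-- the matrix of a minor -/
noncomputable def mat (x : ℝ) {r : ℕ} (u : Fin r → Fin (k + 1) → ℤ) (σ : Fin r → Fin (k + 1)) :
    Matrix (Fin r) (Fin r) ℝ := of fun i j => tv A B x (u i) (σ j)

theorem sq_det_le_Psi (x : ℝ) {r : ℕ} (u : Fin r → Fin (k + 1) → ℤ) (σ : Fin r → Fin (k + 1)) :
    (mat A B x u σ).det ^ 2 ≤ Psi A B x u := by
  unfold Psi mat
  exact Finset.single_le_sum (f := fun σ : Fin r → Fin (k + 1) => (det (of fun i j => tv A B x (u i) (σ j))) ^ 2)
    (fun _ _ => sq_nonneg _) (Finset.mem_univ σ)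

theorem det_stable {a β Θ : ℝ} (hA : ∀ c, 0 ≤ A c) (hAa : ∀ c, A c ≤ a) (hβ : 0 < β)
    (hB : ∀ c, β ≤ B c) (hΘ : 1 ≤ Θ) {x y : ℝ} (hx : 0 ≤ x) (hxΘ : x ≤ Θ) (hy : 0 ≤ y) (hyΘ : y ≤ Θ)
    {r : ℕ} (u : Fin r → Fin (k + 1) → ℤ) (hone : Psi A B x u ≤ 1) (σ : Fin r → Fin (k + 1)) :
    |(mat A B y u σ).det - (mat A B x u σ).det| ≤ ((k : ℝ) + 1) * (a * (k * Θ ^ k) / β) * |x - y| := by
  classical
  have ha : 0 ≤ a := (hA 0).trans (hAa 0)
  have hRHS : 0 ≤ ((k : ℝ) + 1) * (a * (k * Θ ^ k) / β) * |x - y| := by positivity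
  by_cases h0 : ∃ j, σ j = 0
  swap
  · push Not at h0
    have h1 : mat A B y u σ = mat A B x u σ := by
      ext i j
      simp only [mat, of_apply]
      rw [tv_of_ne_zero _ _ _ _ (h0 j), tv_of_ne_zero _ _ _ _ (h0 j)]
    rw [h1, sub_self, abs_zero]
    exact hRHS
  obtain ⟨j0, hj0⟩ := h0
  by_cases h2 : ∃ j, j ≠ j0 ∧ σ j = 0
  · obtain ⟨j1, hj1, hj2⟩ := h2
    have hz : ∀ w : ℝ, (mat A B w u σ).det = 0 := by
      intro w
      apply det_zero_of_column_eq hj1
      intro i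
      simp only [mat, of_apply]
      rw [hj2, hj0]
    rw [hz, hz, sub_self, abs_zero]
    exact hRHS
  push Not at h2
  set N := mat A B x u σ with hN
  set W : Fin (k + 1) → Fin r → ℝ := fun c i => (u i c : ℝ) with hW
  set E : Fin (k + 1) → ℝ := fun c => cramer N (W c) j0 with hE
  have hexp : ∀ w : ℝ, (mat A B w u σ).det = ∑ c : Fin (k + 1), (A c * w ^ (c : ℕ)) * E c := by
    intro w
    have h3 : mat A B w u σ = N.updateCol j0 (∑ c : Fin (k + 1), (A c * w ^ (c : ℕ)) • W c) := by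
      ext i j
      rw [updateCol_apply]
      split_ifs with hj
      · subst hj
        simp only [mat, of_apply, hj0, tv_zero, Finset.sum_apply, Pi.smul_apply, smul_eq_mul, hW]
        refine Finset.sum_congr rfl fun c _ => by ring
      · simp only [mat, of_apply, hN]
        rw [tv_of_ne_zero _ _ _ _ (h2 j hj), tv_of_ne_zero _ _ _ _ (h2 j hj)]
    rw [h3, ← cramer_apply, map_sum, Finset.sum_apply]
    refine Finset.sum_congr rfl fun c _ => ?_
    rw [map_smul]
    rfl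
  have hEb : ∀ c : Fin (k + 1), c ≠ 0 → |E c| ≤ 1 / β := by
    intro c hc
    have h3 : B c * E c = (mat A B x u (Function.update σ j0 c)).det := by
      have h4 : mat A B x u (Function.update σ j0 c) = N.updateCol j0 (B c • W c) := by
        ext i j
        rw [updateCol_apply]
        split_ifs with hj
        · subst hj
          simp only [mat, of_apply, Function.update_self]
          rw [tv_of_ne_zero _ _ _ _ hc]
          rfl
        · simp only [mat, of_apply, hN]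
          rw [Function.update_of_ne hj]
      rw [h4, ← cramer_apply, map_smul]
      rfl
    have h4 := (sq_det_le_Psi A B x u (Function.update σ j0 c)).trans hone
    rw [← h3] at h4
    have h5 : |B c * E c| ≤ 1 := by
      rw [← sq_abs] at h4
      have := abs_nonneg (B c * E c)
      nlinarith
    have hBc : 0 < B c := lt_of_lt_of_le hβ (hB c)
    rw [abs_mul, abs_of_pos hBc] at h5
    rw [le_div_iff₀ hβ]
    calc |E c| * β ≤ |E c| * B c := mul_le_mul_of_nonneg_left (hB c) (abs_nonneg _)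
      _ = B c * |E c| := mul_comm _ _
      _ ≤ 1 := h5
  have hdiff : (mat A B y u σ).det - N.det = ∑ c : Fin (k + 1), A c * (y ^ (c : ℕ) - x ^ (c : ℕ)) * E c := by
    rw [hexp y, hN, hexp x, ← Finset.sum_sub_distrib]
    refine Finset.sum_congr rfl fun c _ => by ring
  rw [hdiff]
  refine (Finset.abs_sum_le_sum_abs _ _).trans ?_
  have hterm : ∀ c ∈ (Finset.univ : Finset (Fin (k + 1))), |A c * (y ^ (c : ℕ) - x ^ (c : ℕ)) * E c| ≤
      a * (k * Θ ^ k) / β * |x - y| := by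
    intro c _
    by_cases hc : c = 0
    · subst hc
      simp only [Fin.val_zero, pow_zero, sub_self, mul_zero, zero_mul, abs_zero]
      positivity
    · rw [abs_mul, abs_mul, abs_of_nonneg (hA c)]
      have h3 := pow_sub_le hΘ hx hxΘ hy hyΘ (c : ℕ)
      rw [abs_sub_comm] at h3
      have hck : (c : ℕ) ≤ k := Nat.lt_succ_iff.1 c.2
      have h4 : ((c : ℕ) : ℝ) * Θ ^ (c : ℕ) ≤ k * Θ ^ k := by
        apply mul_le_mul (by exact_mod_cast hck) (pow_le_pow_right₀ hΘ hck) (by positivity) (by positivity)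
      calc A c * |y ^ (c : ℕ) - x ^ (c : ℕ)| * |E c| ≤ a * (k * Θ ^ k * |x - y|) * (1 / β) := by
            apply mul_le_mul _ (hEb c hc) (abs_nonneg _) (by positivity)
            apply mul_le_mul (hAa c) _ (abs_nonneg _) ha
            exact h3.trans (mul_le_mul_of_nonneg_right h4 (abs_nonneg _))
        _ = _ := by ring
  refine (Finset.sum_le_sum hterm).trans (le_of_eq ?_)
  rw [Finset.sum_const, Finset.card_univ, Fintype.card_fin, nsmul_eq_mul]
  push_cast
  ring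

theorem Psi_stable {a β Θ : ℝ} (hA : ∀ c, 0 ≤ A c) (hAa : ∀ c, A c ≤ a) (hβ : 0 < β)
    (hB : ∀ c, β ≤ B c) (hΘ : 1 ≤ Θ) {x y : ℝ} (hx : 0 ≤ x) (hxΘ : x ≤ Θ) (hy : 0 ≤ y) (hyΘ : y ≤ Θ)
    {r : ℕ} (u : Fin r → Fin (k + 1) → ℤ) (hone : Psi A B x u ≤ 1) :
    Psi A B y u ≤ 2 * Psi A B x u +
      2 * (((k : ℝ) + 1) ^ r * (((k : ℝ) + 1) * (a * (k * Θ ^ k) / β) * |x - y|) ^ 2) := by
  classical
  set L := ((k : ℝ) + 1) * (a * (k * Θ ^ k) / β) * |x - y| with hL
  have h1 : ∀ σ : Fin r → Fin (k + 1), (det (of fun i j => tv A B y (u i) (σ j))) ^ 2 ≤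
      2 * (det (of fun i j => tv A B x (u i) (σ j))) ^ 2 + 2 * L ^ 2 := by
    intro σ
    have h2 := det_stable A B hA hAa hβ hB hΘ hx hxΘ hy hyΘ u hone σ
    rw [← hL] at h2
    have h3 : (mat A B y u σ).det ^ 2 ≤ 2 * (mat A B x u σ).det ^ 2 + 2 * L ^ 2 := by
      have h4 : ((mat A B y u σ).det - (mat A B x u σ).det) ^ 2 ≤ L ^ 2 := by
        rw [← sq_abs]
        exact pow_le_pow_left₀ (abs_nonneg _) h2 2
      nlinarith [sq_nonneg ((mat A B y u σ).det - 2 * (mat A B x u σ).det)]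
    exact h3
  unfold Psi
  refine (Finset.sum_le_sum fun σ _ => h1 σ).trans (le_of_eq ?_)
  rw [Finset.sum_add_distrib, ← Finset.mul_sum, Finset.sum_const, Finset.card_univ, Fintype.card_fun, Fintype.card_fin,
    Fintype.card_fin, nsmul_eq_mul]
  push_cast
  ring

end Pool.Agent.Helper46.TC
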