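import Pool.Agent.Helper46.TC.KM
import Pool.Agent.Helper46.TC.Lower

/-!
# Rational subspaces and the absence of short vectors
-/

set_option autoImplicit false

namespace Pool.Agent.Helper46.TC

open Set Polynomial Matrix Module

variable {k : ℕ}

/-- `toQ` as a linear map -/
def toQl (k : ℕ) : (Fin (k + 1) → ℤ) →ₗ[ℤ] (Fin (k + 1) → ℚ) where
  toFun := toQ
  map_add' u v := by ext c; simp [toQ]
  map_smul' a v := by ext c; simp [toQ]

theorem toQ_injective : Function.Injective (toQ (k := k)) := by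
  intro u v h
  ext c
  have := congrFun h c
  simpa [toQ] using this

theorem exists_int_multiple (w : Fin (k + 1) → ℚ) : ∃ N : ℤ, N ≠ 0 ∧ ∃ v : Fin (k + 1) → ℤ, toQ v = (N : ℚ) • w := by
  obtain ⟨b, hb⟩ := IsLocalization.exist_integer_multiples (nonZeroDivisors ℤ) Finset.univ w
  have hb' : ∀ c, ∃ m : ℤ, (m : ℚ) = ((b : ℤ) : ℚ) * w c := by
    intro c
    obtain ⟨m, hm⟩ := hb c (Finset.mem_univ c)
    refine ⟨m, ?_⟩
    have h1 : ((m : ℤ) : ℚ) = (b : ℤ) • w c := by simpa using hm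
    rw [h1, zsmul_eq_mul]
  choose v hv using hb'
  refine ⟨b, nonZeroDivisors.ne_zero b.2, v, ?_⟩
  ext c
  simp [toQ, hv]

theorem exists_basis (V : Submodule ℚ (Fin (k + 1) → ℚ)) : ∃ b : Fin (finrank ℚ V) → Fin (k + 1) → ℤ,
    LinearIndependent ℚ (fun i => toQ (b i)) ∧ (∀ i, toQ (b i) ∈ V) ∧
    ∀ v : Fin (k + 1) → ℤ, toQ v ∈ V → ∃ c : Fin (finrank ℚ V) → ℤ, v = ∑ i, c i • b i := by
  set L : Submodule ℤ (Fin (k + 1) → ℤ) := (V.restrictScalars ℤ).comap (toQl k) with hL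
  obtain ⟨n, ⟨b'⟩⟩ := L.nonempty_basis_of_pid (Pi.basisFun ℤ (Fin (k + 1)))
  have hli : LinearIndependent ℚ (fun i => toQ (b' i : Fin (k + 1) → ℤ)) := by
    rw [← LinearIndependent.iff_fractionRing ℤ ℚ]
    have h1 : LinearIndependent ℤ (fun i => (b' i : Fin (k + 1) → ℤ)) :=
      b'.linearIndependent.map' L.subtype (Submodule.ker_subtype L)
    exact h1.map' (toQl k) (LinearMap.ker_eq_bot.2 toQ_injective)
  have hmem : ∀ i, toQ (b' i : Fin (k + 1) → ℤ) ∈ V := fun i => (b' i).2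
  have hrep : ∀ v : Fin (k + 1) → ℤ, toQ v ∈ V → ∃ c : Fin n → ℤ, v = ∑ i, c i • (b' i : Fin (k + 1) → ℤ) := by
    intro v hv
    have hvL : v ∈ L := hv
    refine ⟨b'.repr ⟨v, hvL⟩, ?_⟩
    have h1 := b'.sum_repr ⟨v, hvL⟩
    have h2 := congrArg (L.subtype) h1
    rw [map_sum] at h2
    simpa using h2.symm
  have hspan : Submodule.span ℚ (range fun i => toQ (b' i : Fin (k + 1) → ℤ)) = V := by
    apply le_antisymm
    · rw [Submodule.span_le]
      rintro _ ⟨i, rfl⟩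
      exact hmem i
    · intro w hw
      obtain ⟨N, hN, v, hv⟩ := exists_int_multiple w
      have hvV : toQ v ∈ V := by rw [hv]; exact V.smul_mem _ hw
      obtain ⟨c, hc⟩ := hrep v hvV
      have h1 : w = (N : ℚ)⁻¹ • toQ v := by
        rw [hv, smul_smul, inv_mul_cancel₀ (by exact_mod_cast hN), one_smul]
      rw [h1]
      apply Submodule.smul_mem
      have h2 : toQ v = ∑ i, (c i : ℚ) • toQ (b' i : Fin (k + 1) → ℤ) := by
        have h3 := congrArg (toQl k) hc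
        rw [map_sum] at h3
        refine h3.trans ?_
        refine Finset.sum_congr rfl fun i _ => ?_
        rw [map_smul]
        ext c'
        simp [toQl, toQ]
      rw [h2]
      exact Submodule.sum_mem _ fun i _ => Submodule.smul_mem _ _ (Submodule.subset_span ⟨i, rfl⟩)
  have hn : finrank ℚ V = n := by
    rw [← hspan, finrank_span_eq_card hli, Fintype.card_fin]
  subst hn
  exact ⟨fun i => (b' i : Fin (k + 1) → ℤ), hli, hmem, hrep⟩

/-- an integral basis -/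
noncomputable def bs (V : Submodule ℚ (Fin (k + 1) → ℚ)) : Fin (finrank ℚ V) → Fin (k + 1) → ℤ :=
  (exists_basis V).choose

theorem bs_li (V : Submodule ℚ (Fin (k + 1) → ℚ)) : LinearIndependent ℚ (fun i => toQ (bs V i)) :=
  (exists_basis V).choose_spec.1

theorem bs_mem (V : Submodule ℚ (Fin (k + 1) → ℚ)) (i) : toQ (bs V i) ∈ V :=
  (exists_basis V).choose_spec.2.1 i

theorem bs_rep (V : Submodule ℚ (Fin (k + 1) → ℚ)) (v : Fin (k + 1) → ℤ) (hv : toQ v ∈ V) :
    ∃ c : Fin (finrank ℚ V) → ℤ, v = ∑ i, c i • bs V i :=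
  (exists_basis V).choose_spec.2.2 v hv

theorem Psi_pos_of_li {r : ℕ} (u : Fin r → Fin (k + 1) → ℤ) (hu : LinearIndependent ℚ fun i => toQ (u i)) :
    0 < Psi (fun _ => 1) (fun _ => 1) 0 u := by
  obtain ⟨β, hβ⟩ := exists_minor u hu
  have h1 : (det (of fun i j => tv (fun _ => 1) (fun _ => 1) 0 (u i) (β j))) ^ 2 ≤ Psi (fun _ => 1) (fun _ => 1) 0 u := by
    unfold Psi
    exact Finset.single_le_sum (f := fun σ : Fin r → Fin (k + 1) =>
      (det (of fun i j => tv (fun _ => 1) (fun _ => 1) 0 (u i) (σ j))) ^ 2) (fun _ _ => sq_nonneg _) (Finset.mem_univ β)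
  refine lt_of_lt_of_le ?_ h1
  have h2 : ∀ v : Fin (k + 1) → ℤ, ∀ c, tv (fun _ => 1) (fun _ => 1) 0 v c = (v c : ℝ) := by
    intro v c
    by_cases hc : c = 0
    · subst hc
      rw [tv_zero, Fin.sum_univ_succ]
      simp
    · rw [tv_of_ne_zero _ _ _ _ hc, one_mul]
  have h3 : (of fun i j => tv (fun _ => 1) (fun _ => 1) 0 (u i) (β j)) = (of fun i j => u i (β j)).map (Int.cast : ℤ → ℝ) := by
    ext i j; simp [h2]
  have h4 : (((of fun i j => u i (β j)).det : ℤ) : ℝ) = ((of fun i j => u i (β j)).map (Int.cast : ℤ → ℝ)).det :=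
    Int.cast_det (R := ℝ) _
  rw [h3, ← h4]
  have h5 : (((of fun i j => u i (β j)).det : ℤ) : ℝ) ≠ 0 := by exact_mod_cast hβ
  positivity

theorem psi_le (A B : Fin (k + 1) → ℝ) (x : ℝ) (V : Submodule ℚ (Fin (k + 1) → ℚ)) : ∀ (r : ℕ) (_ : r = finrank ℚ V)
    (u : Fin r → Fin (k + 1) → ℤ) (_ : ∀ i, toQ (u i) ∈ V) (_ : LinearIndependent ℚ fun i => toQ (u i)),
    Psi A B x (bs V) ≤ Psi A B x u := by
  intro r hr u hu hli
  subst hr
  choose M hM using fun i => bs_rep V (u i) (hu i)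
  have h1 := Psi_change A B x u (bs V) (of M) hM
  have h2 := Psi_change 1 1 0 u (bs V) (of M) hM
  have h3 := Psi_pos_of_li u hli
  have h4 : (of M).det ≠ 0 := by
    intro h
    rw [h, Int.cast_zero, zero_pow (by norm_num), zero_mul] at h2
    exact h3.ne' h2
  rw [h1]
  have h5 : (1 : ℝ) ≤ (((of M).det : ℤ) : ℝ) ^ 2 := by
    rw [← sq_abs]
    have h6 := Int.one_le_abs h4
    have h7 : (1 : ℝ) ≤ |(((of M).det : ℤ) : ℝ)| := by exact_mod_cast h6
    nlinarith
  have h6 := Psi_nonneg A B x (bs V)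
  nlinarith

theorem Psi_zero (A B : Fin (k + 1) → ℝ) (x : ℝ) : ∀ (r : ℕ) (_ : r = 0) (u : Fin r → Fin (k + 1) → ℤ), Psi A B x u = 1 := by
  intro r hr u
  subst hr
  simp [Psi]

/-- nonzero rational subspaces -/
abbrev Wt (k : ℕ) := {V : Submodule ℚ (Fin (k + 1) → ℚ) // V ≠ ⊥}

theorem finrank_le (V : Submodule ℚ (Fin (k + 1) → ℚ)) : finrank ℚ V ≤ k + 1 := by
  have := Submodule.finrank_le V
  simpa using this

theorem one_le_finrank (V : Wt k) : 1 ≤ finrank ℚ V.1 := Submodule.one_le_finrank_iff.2 V.2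

theorem chain_card (F : Finset (Wt k)) (hF : IsChain (· ≤ ·) (F : Set (Wt k))) : F.card ≤ k + 1 := by
  classical
  have hinj : Set.InjOn (fun V : Wt k => finrank ℚ V.1) (F : Set (Wt k)) := by
    intro V hV U hU h
    by_contra hne
    rcases hF.total hV hU with h1 | h1
    · have h2 : V.1 < U.1 := lt_of_le_of_ne h1 fun h => hne (Subtype.ext h)
      have h3 := Submodule.finrank_lt_finrank_of_lt h2
      exact absurd h h3.ne
    · have h2 : U.1 < V.1 := lt_of_le_of_ne h1 fun h => hne (Subtype.ext h.symm)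
      have h3 := Submodule.finrank_lt_finrank_of_lt h2
      exact absurd h h3.ne'
  have hmaps : ∀ V ∈ F, finrank ℚ V.1 ∈ Finset.Icc 1 (k + 1) := fun V _ =>
    Finset.mem_Icc.2 ⟨one_le_finrank V, finrank_le V.1⟩
  have := Finset.card_le_card_of_injOn _ hmaps hinj
  simpa using this

theorem chain_max (F : Finset (Wt k)) (hF : IsChain (· ≤ ·) (F : Set (Wt k))) (hne : F.Nonempty) :
    ∃ m ∈ F, ∀ V ∈ F, V ≤ m := by
  obtain ⟨m, hm1, hm2⟩ := F.exists_maximal hne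
  refine ⟨m, hm1, fun V hV => ?_⟩
  rcases hF.total hV hm1 with h | h
  · exact h
  · exact hm2 hV h

theorem finrank_sup (V : Submodule ℚ (Fin (k + 1) → ℚ)) (w : Fin (k + 1) → ℚ) (hw : w ∉ V) :
    finrank ℚ (V ⊔ Submodule.span ℚ {w} : Submodule ℚ (Fin (k + 1) → ℚ)) = finrank ℚ V + 1 := by
  have h := Submodule.finrank_sup_add_finrank_inf_eq V (Submodule.span ℚ {w})
  have h1 : w ≠ 0 := fun h => hw (h ▸ V.zero_mem)
  rw [finrank_span_singleton h1] at h
  have h2 : V ⊓ Submodule.span ℚ {w} = ⊥ := by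
    rw [eq_bot_iff]
    rintro y ⟨hy1, hy2⟩
    obtain ⟨a, rfl⟩ := Submodule.mem_span_singleton.1 hy2
    by_cases ha : a = 0
    · simp [ha]
    · exfalso
      apply hw
      have := V.smul_mem a⁻¹ hy1
      rwa [smul_smul, inv_mul_cancel₀ ha, one_smul] at this
  rw [h2, finrank_bot] at h
  exact h

/-- `Psi` as a function of the subspace -/
noncomputable def fV (A B : Fin (k + 1) → ℝ) (V : Wt k) (x : ℝ) : ℝ := Psi A B x (bs V.1)

theorem no_short (T : Tree) (A B : Fin (k + 1) → ℝ) (R E : ℝ) (hR : R ≤ 1) (hER : E ≤ R) (z : Om)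
    (hz : Marked T (fV (k := k) A B) R E ∅ z) (v : Fin (k + 1) → ℤ) (hv : v ≠ 0) :
    E ≤ ((k : ℝ) + 1) ^ 2 * nrm A B (T.pt z) v := by
  classical
  obtain ⟨F, -, hch, h1, h2⟩ := hz
  set F0 := F.filter (fun V => toQ v ∉ V.1) with hF0
  have hv0 : toQ v ≠ 0 := fun h => hv (toQ_injective (h.trans (by ext c; simp [toQ])))
  obtain ⟨V0, hV0a, hV0b, hV0c, hV0d⟩ : ∃ V0 : Submodule ℚ (Fin (k + 1) → ℚ), toQ v ∉ V0 ∧
      (∀ V ∈ F0, V.1 ≤ V0) ∧ (∀ V ∈ F, V ∉ F0 → V0 ≤ V.1) ∧ Psi A B (T.pt z) (bs V0) ≤ 1 := by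
    rcases F0.eq_empty_or_nonempty with he | hne
    · refine ⟨⊥, by simpa using hv0, by simp [he], fun V _ _ => bot_le, ?_⟩
      rw [Psi_zero A B (T.pt z) _ (finrank_bot ℚ _)]
    · have hch0 : IsChain (· ≤ ·) (F0 : Set (Wt k)) := hch.mono (by
        intro V hV; exact (Finset.mem_filter.1 hV).1)
      obtain ⟨m, hm1, hm2⟩ := chain_max F0 hch0 hne
      have hm3 := Finset.mem_filter.1 hm1
      refine ⟨m.1, hm3.2, fun V hV => hm2 V hV, fun V hV hV' => ?_, ?_⟩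
      · have hvV : toQ v ∈ V.1 := by
          by_contra h
          exact hV' (Finset.mem_filter.2 ⟨hV, h⟩)
        rcases hch.total hV hm3.1 with h | h
        · exact absurd (h hvV) hm3.2
        · exact h
      · exact ((h1 m hm3.1 (Finset.notMem_empty _)).2).trans hR
  set V1 : Submodule ℚ (Fin (k + 1) → ℚ) := V0 ⊔ Submodule.span ℚ {toQ v} with hV1
  have hvV1 : toQ v ∈ V1 := (le_sup_right : _ ≤ V1) (Submodule.mem_span_singleton_self _)
  have hV1ne : V1 ≠ ⊥ := by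
    intro h
    rw [h] at hvV1
    exact hv0 (by simpa using hvV1)
  have hfr := finrank_sup V0 (toQ v) hV0a
  rw [← hV1] at hfr
  have hcmp : ∀ V ∈ F, (⟨V1, hV1ne⟩ : Wt k) ≤ V ∨ V ≤ (⟨V1, hV1ne⟩ : Wt k) := by
    intro V hV
    by_cases hVF : V ∈ F0
    · right
      exact (hV0b V hVF).trans le_sup_left
    · left
      have hvV : toQ v ∈ V.1 := by
        by_contra h
        exact hVF (Finset.mem_filter.2 ⟨hV, h⟩)
      exact sup_le (hV0c V hV hVF) ((Submodule.span_singleton_le_iff_mem _ _).2 hvV)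
  have hli : LinearIndependent ℚ fun i => toQ ((Fin.cons v (bs V0) : Fin (finrank ℚ V0 + 1) → Fin (k + 1) → ℤ) i) := by
    have he : (fun i => toQ ((Fin.cons v (bs V0) : Fin (finrank ℚ V0 + 1) → Fin (k + 1) → ℤ) i)) =
        (Fin.cons (toQ v) (fun i => toQ (bs V0 i)) : Fin (finrank ℚ V0 + 1) → Fin (k + 1) → ℚ) := by
      funext i
      refine Fin.cases ?_ (fun i => ?_) i <;> simp
    rw [he, linearIndependent_finCons]
    refine ⟨bs_li V0, fun h => hV0a ?_⟩
    refine (Submodule.span_le.2 ?_) h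
    rintro _ ⟨i, rfl⟩
    exact bs_mem V0 i
  have hle := psi_le A B (T.pt z) V1 (finrank ℚ V0 + 1) hfr.symm (Fin.cons v (bs V0)) (by
    intro i
    refine Fin.cases ?_ (fun i => ?_) i
    · simpa using hvV1
    · simp only [Fin.cons_succ]
      exact (le_sup_left : _ ≤ V1) (bs_mem V0 i)) hli
  have hle2 := hle.trans (Psi_cons A B (T.pt z) v (bs V0))
  have hnn : 0 ≤ nrm A B (T.pt z) v := Finset.sum_nonneg fun _ _ => sq_nonneg _
  have hrk : ((finrank ℚ V0 : ℕ) : ℝ) + 1 ≤ (k : ℝ) + 1 := by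
    have := finrank_le V1
    rw [hfr] at this
    have h3 : (finrank ℚ V0 : ℕ) ≤ k := by omega
    have h4 : ((finrank ℚ V0 : ℕ) : ℝ) ≤ k := by exact_mod_cast h3
    linarith
  have hle3 : Psi A B (T.pt z) (bs V1) ≤ ((k : ℝ) + 1) ^ 2 * nrm A B (T.pt z) v := by
    refine hle2.trans ?_
    have h3 : nrm A B (T.pt z) v * Psi A B (T.pt z) (bs V0) ≤ nrm A B (T.pt z) v :=
      mul_le_of_le_one_right hnn hV0d
    have h4 : ((finrank ℚ V0 : ℕ) : ℝ) + 1 ≥ 0 := by positivity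
    have h5 : (((finrank ℚ V0 : ℕ) : ℝ) + 1) ^ 2 ≤ ((k : ℝ) + 1) ^ 2 := pow_le_pow_left₀ h4 hrk 2
    exact mul_le_mul h5 h3 (mul_nonneg hnn (Psi_nonneg _ _ _ _)) (by positivity)
  by_cases hmem : (⟨V1, hV1ne⟩ : Wt k) ∈ F
  · exact (h1 _ hmem (Finset.notMem_empty _)).1.trans hle3
  · exact (hER.trans (h2 ⟨V1, hV1ne⟩ ⟨hmem, hcmp⟩)).trans hle3

end Pool.Agent.Helper46.TC
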