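import Mathlib

/-!
# Trees of intervals with product measures

`Om = ℕ → ℕ` (sequences of digits) with the measure `P b`: the digits are independent, the `n`-th one is uniform
on `{0, …, b n - 1}`.  A `Tree` assigns to each finite prefix a compact interval `[lo n x, hi n x]`, nested, with
lengths tending to zero.  Two properties are required: a decay property of the measure, uniform over all
cylinders, and a bound for the ratio of the lengths of an interval and of its parent.
-/

set_option autoImplicit false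

namespace Pool.Agent.Helper46.TC

open MeasureTheory Set

/-- infinite sequences of digits -/
abbrev Om := ℕ → ℕ

/-- uniform measure on `{0, …, b - 1}` (on `{0}` when `b = 0`) -/
noncomputable def unif (b : ℕ) : Measure ℕ :=
  (PMF.uniformOfFinset (Finset.range (max b 1)) ⟨0, Finset.mem_range.2 (lt_of_lt_of_le one_pos (le_max_right _ _))⟩).toMeasure

instance (b : ℕ) : IsProbabilityMeasure (unif b) := by unfold unif; infer_instance

theorem unif_singleton (b : ℕ) (hb : 0 < b) (a : ℕ) (ha : a < b) : unif b {a} = (b : ENNReal)⁻¹ := by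
  unfold unif
  rw [PMF.toMeasure_apply_singleton _ _ (measurableSet_singleton a)]
  have h1 : max b 1 = b := max_eq_left hb
  rw [PMF.uniformOfFinset_apply_of_mem _ (by rw [h1]; exact Finset.mem_range.2 ha), h1, Finset.card_range]

theorem unif_singleton_le (b : ℕ) (hb : 0 < b) (a : ℕ) : unif b {a} ≤ (b : ENNReal)⁻¹ := by
  by_cases ha : a < b
  · exact (unif_singleton b hb a ha).le
  · unfold unif
    rw [PMF.toMeasure_apply_singleton _ _ (measurableSet_singleton a)]
    have h1 : max b 1 = b := max_eq_left hb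
    rw [PMF.uniformOfFinset_apply_of_notMem _ (by rw [h1]; simpa using ha)]
    exact zero_le

/-- product measure on sequences of digits -/
noncomputable def P (b : ℕ → ℕ) : Measure Om := Measure.infinitePi (fun n : ℕ => unif (b n))

instance (b : ℕ → ℕ) : IsProbabilityMeasure (P b) := by unfold P; infer_instance

/-- sequences that agree with `x` before place `n` -/
def cyl (x : Om) (n : ℕ) : Set Om := {y | ∀ i < n, y i = x i}

theorem mem_cyl {x y : Om} {n : ℕ} : y ∈ cyl x n ↔ ∀ i < n, y i = x i := Iff.rfl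

theorem self_mem_cyl (x : Om) (n : ℕ) : x ∈ cyl x n := fun _ _ => rfl

theorem cyl_eq_pi (x : Om) (n : ℕ) : cyl x n = Set.pi (Finset.range n : Set ℕ) (fun i => {x i}) := by
  ext y
  simp [cyl]

theorem measurableSet_cyl (x : Om) (n : ℕ) : MeasurableSet (cyl x n) := by
  rw [cyl_eq_pi]
  exact MeasurableSet.pi (Finset.countable_toSet _) (fun i _ => measurableSet_singleton _)

theorem P_cyl (b : ℕ → ℕ) (x : Om) (n : ℕ) : P b (cyl x n) = ∏ i ∈ Finset.range n, unif (b i) {x i} := by
  rw [cyl_eq_pi]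
  unfold P
  rw [Measure.infinitePi_pi _ (fun i _ => measurableSet_singleton _)]

theorem P_cyl_succ (b : ℕ → ℕ) (x : Om) (n : ℕ) : P b (cyl x (n + 1)) = unif (b n) {x n} * P b (cyl x n) := by
  rw [P_cyl, P_cyl, Finset.prod_range_succ, mul_comm]

theorem cyl_eq_of_mem {x y : Om} {n : ℕ} (h : y ∈ cyl x n) : cyl y n = cyl x n := by
  ext z
  exact ⟨fun hz i hi => (hz i hi).trans (h i hi), fun hz i hi => (hz i hi).trans (h i hi).symm⟩

theorem cyl_anti {x : Om} {n m : ℕ} (h : n ≤ m) : cyl x m ⊆ cyl x n :=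
  fun _ hz i hi => hz i (hi.trans_le h)

theorem cyl_zero (x : Om) : cyl x 0 = univ := by
  ext y; simp [cyl]

theorem update_mem (x : Om) (n : ℕ) (c : ℕ) : Function.update x n c ∈ cyl x n := by
  intro i hi
  rw [Function.update_of_ne hi.ne]

/-- the limit point -/
noncomputable def ptOf (lo : ℕ → Om → ℝ) (x : Om) : ℝ := ⨆ n, lo n x

/-- a tree of intervals with a decaying measure -/
structure Tree where
  /-- numbers of children -/
  b : ℕ → ℕ
  lo : ℕ → Om → ℝ
  hi : ℕ → Om → ℝ
  dep_lo : ∀ n x y, y ∈ cyl x n → lo n y = lo n x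
  dep_hi : ∀ n x y, y ∈ cyl x n → hi n y = hi n x
  lt : ∀ n x, lo n x < hi n x
  lo_le : ∀ n x, lo n x ≤ lo (n + 1) x
  hi_le : ∀ n x, hi (n + 1) x ≤ hi n x
  tend : ∀ x, Filter.Tendsto (fun n => hi n x - lo n x) Filter.atTop (nhds 0)
  /-- decay exponent and constants -/
  s : ℝ
  C : ℝ
  ρ : ℝ
  hs : 0 < s
  hC : 0 < C
  hρ : 0 < ρ
  decay : ∀ (y r : ℝ) (n : ℕ) (x : Om), 0 < r → P b (cyl x n ∩ {z | |ptOf lo z - y| < r}) ≤
    ENNReal.ofReal (C * (r / (hi n x - lo n x)) ^ s) * P b (cyl x n)
  ratio : ∀ n x, hi n x - lo n x ≤ ρ * (1 + |Real.log (hi n x - lo n x)|) * (hi (n + 1) x - lo (n + 1) x)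

namespace Tree

variable (T : Tree)

/-- length of the interval of `x` at level `n` -/
def len (n : ℕ) (x : Om) : ℝ := T.hi n x - T.lo n x

/-- limit point -/
noncomputable def pt (x : Om) : ℝ := ptOf T.lo x

theorem len_pos (n : ℕ) (x : Om) : 0 < T.len n x := sub_pos.2 (T.lt n x)

theorem dep_len {n : ℕ} {x y : Om} (h : y ∈ cyl x n) : T.len n y = T.len n x := by
  unfold len; rw [T.dep_lo n x y h, T.dep_hi n x y h]

theorem lo_mono (x : Om) : Monotone fun n => T.lo n x := monotone_nat_of_le_succ fun n => T.lo_le n x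

theorem hi_anti (x : Om) : Antitone fun n => T.hi n x := antitone_nat_of_succ_le fun n => T.hi_le n x

theorem lo_le_hi (m n : ℕ) (x : Om) : T.lo m x ≤ T.hi n x :=
  (T.lo_mono x (le_max_left m n)).trans ((T.lt (max m n) x).le.trans (T.hi_anti x (le_max_right m n)))

theorem bdd (x : Om) : BddAbove (range fun n => T.lo n x) :=
  ⟨T.hi 0 x, by rintro _ ⟨n, rfl⟩; exact T.lo_le_hi n 0 x⟩

theorem lo_le_pt (n : ℕ) (x : Om) : T.lo n x ≤ T.pt x := le_ciSup (T.bdd x) n

theorem pt_le_hi (n : ℕ) (x : Om) : T.pt x ≤ T.hi n x := ciSup_le fun m => T.lo_le_hi m n x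

theorem len_anti (n : ℕ) (x : Om) : T.len (n + 1) x ≤ T.len n x := by
  have h1 := T.lo_le n x
  have h2 := T.hi_le n x
  unfold len
  linarith

/-- parent interval -/
def par (n : ℕ) (x : Om) : Set ℝ := Icc (T.lo (n - 1) x) (T.hi (n - 1) x)

theorem dep_par {n : ℕ} {x y : Om} (h : y ∈ cyl x n) : T.par n y = T.par n x := by
  unfold par
  rw [T.dep_lo _ _ _ (cyl_anti (Nat.sub_le n 1) h), T.dep_hi _ _ _ (cyl_anti (Nat.sub_le n 1) h)]

theorem pt_mem_par (n : ℕ) (x : Om) : T.pt x ∈ T.par n x := ⟨T.lo_le_pt _ x, T.pt_le_hi _ x⟩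

/-- the ratio of the lengths of the parent and of the interval -/
theorem par_len (n : ℕ) (x : Om) :
    T.len (n - 1) x ≤ max 1 (T.ρ * (1 + |Real.log (T.len (n - 1) x)|)) * T.len n x := by
  have hl := T.len_pos n x
  cases n with
  | zero =>
    simp only [Nat.zero_sub]
    exact le_mul_of_one_le_left hl.le (le_max_left _ _)
  | succ n =>
    simp only [Nat.add_sub_cancel]
    exact (T.ratio n x).trans (mul_le_mul_of_nonneg_right (le_max_right _ _) hl.le)

end Tree

end Pool.Agent.Helper46.TC
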